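import Mathlib

/-!
The exponential rate for closed shells in high dimension.
-/

open Set Filter Topology Real

namespace Pool.Agent.N537.CS

/-- the rate; `y = d / l` -/
noncomputable def rate (y : ℝ) : ℝ := log (1 + y / 2) - log (1 + y) + 1 - log (1 + y) / y

theorem q_pos {y : ℝ} (hy : 0 < y) : 0 < y * log (1 + y / 2) - (1 + y) * log (1 + y) + y := by
  set q : ℝ → ℝ := fun y => y * log (1 + y / 2) - (1 + y) * log (1 + y) + y with hq
  have hd : ∀ x : ℝ, 0 ≤ x → HasDerivAt q (x / (2 + x) - log (1 + x / (2 + x))) x := by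
    intro x hx
    have h1 : HasDerivAt (fun y : ℝ => log (1 + y / 2)) (1 / 2 / (1 + x / 2)) x := by
      have h2 : HasDerivAt (fun y : ℝ => 1 + y / 2) (1 / 2) x :=
        ((hasDerivAt_id x).div_const 2).const_add 1
      exact h2.log (by positivity)
    have h3 : HasDerivAt (fun y : ℝ => log (1 + y)) (1 / (1 + x)) x :=
      ((hasDerivAt_id x).const_add 1).log (by positivity)
    have h4 := (((hasDerivAt_id x).mul h1).sub (((hasDerivAt_id x).const_add 1).mul h3)).add
      (hasDerivAt_id x)
    refine h4.congr_deriv ?_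
    have h5 : log (1 + x / (2 + x)) = log (1 + x) - log (1 + x / 2) := by
      rw [← log_div (by positivity) (by positivity)]
      congr 1
      field_simp
      ring
    rw [h5]
    simp only [id]
    field_simp
    ring
  have hmono : StrictMonoOn q (Ici 0) := by
    apply strictMonoOn_of_deriv_pos (convex_Ici 0)
    · exact fun x hx => (hd x hx).continuousAt.continuousWithinAt
    · intro x hx
      rw [interior_Ici] at hx
      have hx0 : 0 < x := hx
      rw [(hd x hx0.le).deriv]
      have hz : 0 < x / (2 + x) := by positivity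
      have h6 := log_lt_sub_one_of_pos (x := 1 + x / (2 + x)) (by positivity) (by linarith)
      linarith
  have h0 : q 0 = 0 := by simp [hq]
  have h1 := hmono (mem_Ici.2 le_rfl) (mem_Ici.2 hy.le) hy
  rw [h0] at h1
  exact h1

theorem rate_pos {y : ℝ} (hy : 0 < y) : 0 < rate y := by
  have h1 := q_pos hy
  have h2 : y * rate y = y * log (1 + y / 2) - (1 + y) * log (1 + y) + y := by
    unfold rate
    field_simp
    ring
  rw [← h2] at h1
  exact (mul_pos_iff_of_pos_left hy).1 h1

theorem rate_mono : MonotoneOn rate (Ioi 0) := by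
  have hd : ∀ x : ℝ, 0 < x → HasDerivAt rate ((log (1 + x) - 2 * x / (x + 2)) / x ^ 2) x := by
    intro x hx
    have h1 : HasDerivAt (fun y : ℝ => log (1 + y / 2)) (1 / 2 / (1 + x / 2)) x := by
      have h2 : HasDerivAt (fun y : ℝ => 1 + y / 2) (1 / 2) x :=
        ((hasDerivAt_id x).div_const 2).const_add 1
      exact h2.log (by positivity)
    have h3 : HasDerivAt (fun y : ℝ => log (1 + y)) (1 / (1 + x)) x :=
      ((hasDerivAt_id x).const_add 1).log (by positivity)
    have h4 := ((h1.sub h3).add_const 1).sub (h3.div (hasDerivAt_id x) hx.ne')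
    refine h4.congr_deriv ?_
    simp only [id]
    field_simp
    ring
  apply monotoneOn_of_deriv_nonneg (convex_Ioi 0)
  · exact fun x hx => (hd x hx).continuousAt.continuousWithinAt
  · rw [interior_Ioi]
    exact fun x hx => (hd x hx).differentiableAt.differentiableWithinAt
  · intro x hx
    rw [interior_Ioi] at hx
    have hx0 : 0 < x := hx
    rw [(hd x hx0).deriv]
    have h5 := le_log_one_add_of_nonneg hx0.le
    apply div_nonneg _ (sq_nonneg x)
    linarith

theorem rate_le {y : ℝ} (hy : 0 < y) : rate y ≤ 1 - log 2 := by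
  have h1 : log (1 + y / 2) - log (1 + y) = log (1 + 1 / (1 + y)) - log 2 := by
    rw [← log_div (by positivity) (by positivity), ← log_div (by positivity) (by positivity)]
    congr 1
    field_simp
    ring
  have h2 : log (1 + 1 / (1 + y)) ≤ 1 / (1 + y) := by
    have := log_le_sub_one_of_pos (x := 1 + 1 / (1 + y)) (by positivity)
    linarith
  have h3 : 1 / (1 + y) ≤ log (1 + y) / y := by
    have h4 := one_sub_inv_le_log_of_pos (x := 1 + y) (by positivity)
    rw [le_div_iff₀ hy]
    refine le_trans (le_of_eq ?_) h4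
    field_simp
    ring
  unfold rate
  linarith

/-- the binomial coefficient -/
theorem choose_bd (l d : ℕ) : (l + d).choose l * (l ^ l * d ^ d) ≤ (l + d) ^ (l + d) := by
  rw [add_pow]
  have h1 := Finset.single_le_sum (s := Finset.range (l + d + 1))
    (f := fun m => l ^ m * d ^ (l + d - m) * (l + d).choose m) (fun i _ => Nat.zero_le _)
    (Finset.mem_range.2 (show l < l + d + 1 by omega))
  refine le_trans (le_of_eq ?_) h1
  simp only [Nat.add_sub_cancel_left]
  ring

/-- the logarithm of the binomial coefficient -/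
theorem log_choose {l d : ℕ} (hl : 1 ≤ l) (hd : 1 ≤ d) :
    log ((l + d).choose l : ℝ) ≤ l * log (1 + (d : ℝ) / l) +
      d * (log (1 + (d : ℝ) / l) - log ((d : ℝ) / l)) := by
  have hl' : (0 : ℝ) < l := by exact_mod_cast hl
  have hd' : (0 : ℝ) < d := by exact_mod_cast hd
  have hc : (0 : ℝ) < ((l + d).choose l : ℝ) := by
    exact_mod_cast Nat.choose_pos (by omega)
  have h1 : ((l + d).choose l : ℝ) * ((l : ℝ) ^ l * (d : ℝ) ^ d) ≤ ((l : ℝ) + d) ^ (l + d) := by
    exact_mod_cast choose_bd l d
  have h2 := log_le_log (by positivity) h1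
  rw [log_mul hc.ne' (by positivity), log_mul (by positivity) (by positivity), log_pow, log_pow,
    log_pow] at h2
  have h3 : log (1 + (d : ℝ) / l) = log ((l : ℝ) + d) - log l := by
    rw [← log_div (by positivity) (by positivity)]
    congr 1
    field_simp
  have h4 : log ((d : ℝ) / l) = log d - log l := log_div (by positivity) (by positivity)
  rw [h3, h4]
  push_cast at h2
  nlinarith

end Pool.Agent.N537.CS
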