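import Pool.Agent.R117.RL.ShellFull

/-!
The multiplet of angular momentum two in dimension three.
-/

open Finset

namespace Pool.Agent.N537.CS

open Pool.Agent.R117.RL

/-- the quadratic form of a matrix -/
noncomputable def qf (M : Fin 3 → Fin 3 → ℝ) (x : E 3) : ℝ := ∑ a, ∑ b, M a b * (x a * x b)

theorem qf_deriv (M : Fin 3 → Fin 3 → ℝ) (hM : ∀ a b, M a b = M b a) (x : E 3) :
    ∃ L : E 3 →L[ℝ] ℝ, HasFDerivAt (qf M) L x ∧ ∀ v, L v = 2 * ∑ a, ∑ b, M a b * (x a * v b) := by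
  have h1 : ∀ a : Fin 3, HasFDerivAt (fun y : E 3 => y a)
      (EuclideanSpace.proj a : E 3 →L[ℝ] ℝ) x := fun a =>
    (EuclideanSpace.proj a : E 3 →L[ℝ] ℝ).hasFDerivAt
  have h2 : ∀ a b : Fin 3, HasFDerivAt (fun y : E 3 => M a b * (y a * y b))
      (M a b • (x a • (EuclideanSpace.proj b : E 3 →L[ℝ] ℝ) +
        x b • (EuclideanSpace.proj a : E 3 →L[ℝ] ℝ))) x := fun a b =>
    ((h1 a).mul (h1 b)).const_mul (M a b)
  refine ⟨_, HasFDerivAt.fun_sum fun a _ => HasFDerivAt.fun_sum fun b _ => h2 a b, fun v => ?_⟩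
  have hp : ∀ a, (EuclideanSpace.proj a : E 3 →L[ℝ] ℝ) v = v a := fun a => rfl
  simp only [_root_.sum_apply, smul_apply, add_apply, smul_eq_mul, hp]
  have h3 : ∑ a, ∑ b, M a b * (x a * v b + x b * v a) =
      ∑ a, ∑ b, M a b * (x a * v b) + ∑ a, ∑ b, M b a * (x b * v a) := by
    rw [← sum_add_distrib]
    refine sum_congr rfl fun a _ => ?_
    rw [← sum_add_distrib]
    refine sum_congr rfl fun b _ => ?_
    rw [hM b a]
    ring
  rw [h3, sum_comm (f := fun a b => M b a * (x b * v a))]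
  ring

/-- the matrices of the five functions -/
noncomputable def dm : Fin 5 → Fin 3 → Fin 3 → ℝ :=
  ![![![0, √3 / 2, 0], ![√3 / 2, 0, 0], ![0, 0, 0]],
    ![![0, 0, 0], ![0, 0, √3 / 2], ![0, √3 / 2, 0]],
    ![![0, 0, √3 / 2], ![0, 0, 0], ![√3 / 2, 0, 0]],
    ![![√3 / 2, 0, 0], ![0, -(√3 / 2), 0], ![0, 0, 0]],
    ![![-(1 / 2), 0, 0], ![0, -(1 / 2), 0], ![0, 0, 1]]]

/-- The multiplet of angular momentum two: `√3 x y`, `√3 y z`, `√3 x z`, `√3 (x² - y²) / 2`,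
`z² - (x² + y²) / 2`. -/
noncomputable def dshell (j : Fin 5) : E 3 → ℝ := qf (dm j)

theorem dm_symm (j : Fin 5) (a b : Fin 3) : dm j a b = dm j b a := by
  fin_cases j <;> fin_cases a <;> fin_cases b <;> simp [dm]

theorem shell_d : Shell (d := 3) 2 dshell := by
  have h3 : √(3 : ℝ) ^ 2 = 3 := Real.sq_sqrt (by norm_num)
  refine ⟨fun j => ?_, fun j x => ?_, fun x => ?_, fun x => ?_⟩
  · unfold dshell qf
    fun_prop
  · obtain ⟨L, hL, hLv⟩ := qf_deriv (dm j) (dm_symm j) x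
    rw [dshell, hL.fderiv, hLv, qf]
    norm_num
  · have e : ‖x‖ ^ (2 * 2) = (‖x‖ ^ 2) ^ 2 := by rw [← pow_mul]
    rw [e, EuclideanSpace.real_norm_sq_eq]
    simp [dshell, qf, dm, Fin.sum_univ_succ]
    ring_nf
    rw [h3]
    ring
  · have e : ∀ j i, fderiv ℝ (dshell j) x (EuclideanSpace.single i 1) =
        2 * ∑ a, dm j a i * x a := by
      intro j i
      obtain ⟨L, hL, hLv⟩ := qf_deriv (dm j) (dm_symm j) x
      rw [dshell, hL.fderiv, hLv]
      congr 1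
      refine sum_congr rfl fun a _ => ?_
      rw [sum_eq_single i]
      · simp
      · intro b _ hb
        simp [hb]
      · simp
    simp only [e]
    have e2 : ‖x‖ ^ (2 * 2 - 2) = ‖x‖ ^ 2 := rfl
    rw [e2, EuclideanSpace.real_norm_sq_eq]
    simp [dm, Fin.sum_univ_succ]
    ring_nf
    rw [h3]
    ring

end Pool.Agent.N537.CS
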