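import Pool.Agent.N537.CS.Prof

/-!
Closed shells with several angular momenta: from the pointwise inequality to the kinetic inequality.
-/

open MeasureTheory Set Filter Topology
open scoped InnerProductSpace

namespace Pool.Agent.N537.CS

open Pool.Agent.R117.RL

/-- the centrifugal coefficient in dimension `k + 1` -/
noncomputable def cen (k l : ℕ) : ℝ := ((k : ℝ) / 2) ^ 2 - (k : ℝ) / 2 + l * ((l : ℝ) + k - 1)

theorem cen_pos {k l : ℕ} (hk : 1 ≤ k) (hl : 1 ≤ l) : 0 < cen k l := by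
  have hk' : (1 : ℝ) ≤ k := by exact_mod_cast hk
  have hl' : (1 : ℝ) ≤ l := by exact_mod_cast hl
  unfold cen
  nlinarith [sq_nonneg ((k : ℝ) / 2 - 1 / 2), mul_nonneg (by linarith : (0 : ℝ) ≤ (l : ℝ) - 1)
    (by linarith : (0 : ℝ) ≤ (l : ℝ) + k - 1)]

/-- Closed shells with several angular momenta: for every `l` in the finite set `Λ` a multiplet
`P l` of angular momentum `l` with `g l` members, and a closed shell system `u l` built on it. -/
structure Mixed {d : ℕ} (Λ : Finset ℕ) (g N : ℕ → ℕ) (P : ∀ l, Fin (g l) → E d → ℝ)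
    (u : ∀ l, Fin (N l) → Fin (g l) → E d → ℂ) : Prop where
  shell : ∀ l ∈ Λ, Shell l (P l)
  system : ∀ l ∈ Λ, ShellSystem (P l) (u l)

theorem mix {k : ℕ} (hk : 1 ≤ k) {Λ : Finset ℕ} {g N : ℕ → ℕ} (hΛ : ∀ l ∈ Λ, 1 ≤ l)
    (hg : ∀ l ∈ Λ, 1 ≤ g l) {K' : ℝ} (hK' : 0 < K')
    (hpt : ∀ t : ℕ → ℝ, (∀ l, 0 ≤ t l) →
      K' * (∑ l ∈ Λ, (g l : ℝ) * t l) ^ (1 + 2 / ((k + 1 : ℕ) : ℝ)) ≤
        ∑ l ∈ Λ, (g l : ℝ) * (Real.pi ^ 2 / 4 * (t l) ^ 3 + cen k l * t l))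
    {P : ∀ l, Fin (g l) → E (k + 1) → ℝ} {u : ∀ l, Fin (N l) → Fin (g l) → E (k + 1) → ℂ}
    (h : Mixed Λ g N P u) :
    Integrable (fun x : E (k + 1) =>
      (∑ l ∈ Λ, ∑ n, ∑ j, ‖u l n j x‖ ^ 2) ^ (1 + 2 / ((k + 1 : ℕ) : ℝ))) ∧
    K' * sg (k + 1) ^ (2 / ((k + 1 : ℕ) : ℝ)) * (∫ x : E (k + 1),
      (∑ l ∈ Λ, ∑ n, ∑ j, ‖u l n j x‖ ^ 2) ^ (1 + 2 / ((k + 1 : ℕ) : ℝ))) ≤
      ∑ l ∈ Λ, ∑ n, ∑ j, ∫ x, grad2 (u l n j) x := by
  have hk' : (1 : ℝ) ≤ k := by exact_mod_cast hk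
  have hsg := sg_pos (Nat.succ_pos k)
  set s := sg (k + 1) with hs
  have hsg0 : 0 < s := hsg
  have hex : ∀ l, ∃ R : ℝ → ℝ, (∀ r, 0 ≤ R r) ∧ (l ∈ Λ → ContinuousOn R (Ioi 0) ∧
      (∀ x : E (k + 1), ∑ n, ∑ j, ‖u l n j x‖ ^ 2 = R ‖x‖) ∧
      IntegrableOn (dens k (cen k l) (g l) R) (Ioi 0) ∧
      (∫ r in Ioi 0, dens k (cen k l) (g l) R r) ≤ ∑ n, ∑ j, ∫ x, grad2 (u l n j) x) := by
    intro l
    by_cases hl : l ∈ Λ
    · obtain ⟨m, rfl⟩ : ∃ m, l = m + 1 := ⟨l - 1, by have := hΛ l hl; omega⟩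
      obtain ⟨R, h1, h2, h3, h4, h5⟩ := shell_profile hk (hg _ hl) (h.shell _ hl) (u (m + 1))
        (h.system _ hl)
      have e : cen k (m + 1) =
          ((k : ℝ) / 2) ^ 2 - (k : ℝ) / 2 + ((m : ℝ) + 1) * ((m : ℝ) + k) := by
        unfold cen
        push_cast
        ring
      rw [← e] at h4 h5
      exact ⟨R, h1, fun _ => ⟨h2, h3, h4, h5⟩⟩
    · exact ⟨fun _ => 0, fun _ => le_rfl, fun h => absurd h hl⟩
  choose R hR0 hR using hex
  set Rt : ℝ → ℝ := fun r => ∑ l ∈ Λ, R l r with hRt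
  have hRt0 : ∀ r, 0 ≤ Rt r := fun r => Finset.sum_nonneg fun l _ => hR0 l r
  have hRtc : ContinuousOn Rt (Ioi 0) := continuousOn_finsetSum _ fun l hl => (hR l hl).1
  have hρ : ∀ x : E (k + 1), ∑ l ∈ Λ, ∑ n, ∑ j, ‖u l n j x‖ ^ 2 = Rt ‖x‖ := by
    intro x
    exact Finset.sum_congr rfl fun l hl => (hR l hl).2.1 x
  set p : ℝ := 1 + 2 / ((k + 1 : ℕ) : ℝ) with hp
  have hcast : ((k + 1 : ℕ) : ℝ) = (k : ℝ) + 1 := by push_cast; ring
  -- the pointwise inequality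
  have hptw : ∀ r ∈ Ioi (0 : ℝ), K' * s ^ (2 / ((k + 1 : ℕ) : ℝ)) * (s * (r ^ k • Rt r ^ p)) ≤
      ∑ l ∈ Λ, dens k (cen k l) (g l) (R l) r := by
    intro r hr
    have hr0 : (0 : ℝ) < r := hr
    set t : ℕ → ℝ := fun l => r * (s / g l * r ^ k * R l r) with ht
    have ht0 : ∀ l, 0 ≤ t l := fun l => by
      have := hR0 l r
      simp only [ht]
      positivity
    have h1 := hpt t ht0
    have h2 : ∑ l ∈ Λ, (g l : ℝ) * t l = s * r ^ (k + 1) * Rt r := by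
      rw [hRt]
      simp only
      rw [Finset.mul_sum]
      refine Finset.sum_congr rfl fun l hl => ?_
      have hgl : (g l : ℝ) ≠ 0 := by
        have := hg l hl
        positivity
      simp only [ht]
      field_simp
      ring
    have h3 : ∑ l ∈ Λ, (g l : ℝ) * (Real.pi ^ 2 / 4 * (t l) ^ 3 + cen k l * t l) =
        r ^ 3 * ∑ l ∈ Λ, dens k (cen k l) (g l) (R l) r := by
      rw [Finset.mul_sum]
      refine Finset.sum_congr rfl fun l hl => ?_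
      simp only [ht, dens]
      rw [← hs]
      field_simp
    have h4 : (s * r ^ (k + 1) * Rt r) ^ p =
        s ^ (2 / ((k + 1 : ℕ) : ℝ)) * s * (r ^ 3 * (r ^ k * Rt r ^ p)) := by
      have h5 : (r ^ (k + 1)) ^ p = r ^ 3 * r ^ k := by
        rw [hp, Real.rpow_add (by positivity), Real.rpow_one]
        have h6 : (r ^ (k + 1) : ℝ) ^ (2 / ((k + 1 : ℕ) : ℝ)) = r ^ 2 := by
          rw [← Real.rpow_natCast r (k + 1), ← Real.rpow_mul hr0.le, mul_div_cancel₀,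
            ← Real.rpow_natCast r 2]
          · norm_num
          · positivity
        rw [h6, pow_succ]
        ring
      have h6 : s ^ p = s ^ (2 / ((k + 1 : ℕ) : ℝ)) * s := by
        rw [hp, Real.rpow_add hsg0, Real.rpow_one, mul_comm]
      rw [Real.mul_rpow (by positivity) (hRt0 r), Real.mul_rpow hsg0.le (by positivity), h5, h6]
      ring
    rw [h2, h3, h4] at h1
    have h5 : r ^ 3 * (K' * s ^ (2 / ((k + 1 : ℕ) : ℝ)) * (s * (r ^ k • Rt r ^ p))) ≤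
        r ^ 3 * ∑ l ∈ Λ, dens k (cen k l) (g l) (R l) r := by
      refine le_trans (le_of_eq ?_) h1
      rw [smul_eq_mul]
      ring
    exact le_of_mul_le_mul_left h5 (by positivity)
  have hD : IntegrableOn (fun r => ∑ l ∈ Λ, dens k (cen k l) (g l) (R l) r) (Ioi 0) :=
    integrable_finsetSum _ fun l hl => (hR l hl).2.2.1
  have hC : 0 < K' * s ^ (2 / ((k + 1 : ℕ) : ℝ)) := by positivity
  have hI : IntegrableOn (fun r => r ^ k • Rt r ^ p) (Ioi 0) := by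
    refine Integrable.mono' (hD.const_mul (K' * s ^ (2 / ((k + 1 : ℕ) : ℝ)) * s)⁻¹) ?_ ?_
    · apply ContinuousOn.aestronglyMeasurable _ measurableSet_Ioi
      apply (continuousOn_id.pow k).smul
      exact hRtc.rpow_const fun r _ => Or.inr (by rw [hp]; positivity)
    · refine (ae_restrict_mem measurableSet_Ioi).mono fun r hr => ?_
      have hr0 : (0 : ℝ) < r := hr
      have h0 : 0 ≤ r ^ k • Rt r ^ p := by
        rw [smul_eq_mul]
        exact mul_nonneg (by positivity) (Real.rpow_nonneg (hRt0 r) _)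
      rw [Real.norm_eq_abs, abs_of_nonneg h0]
      have h3 := hptw r hr
      rw [← mul_assoc] at h3
      rw [← div_eq_inv_mul, le_div_iff₀ (by positivity), mul_comm]
      exact h3
  have e0 : (fun x : E (k + 1) => (∑ l ∈ Λ, ∑ n, ∑ j, ‖u l n j x‖ ^ 2) ^ p) =
      fun x => Rt ‖x‖ ^ p := by
    funext x
    rw [hρ]
  rw [e0]
  refine ⟨(polar_int (h := fun y => Rt y ^ p)).2 hI, ?_⟩
  rw [polar (k := k) (fun y => Rt y ^ p), smul_eq_mul, ← hs]
  calc K' * s ^ (2 / ((k + 1 : ℕ) : ℝ)) * (s * ∫ y in Ioi 0, y ^ k • Rt y ^ p)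
      = ∫ r in Ioi 0, K' * s ^ (2 / ((k + 1 : ℕ) : ℝ)) * (s * (r ^ k • Rt r ^ p)) := by
        rw [integral_const_mul, integral_const_mul]
    _ ≤ ∫ r in Ioi 0, ∑ l ∈ Λ, dens k (cen k l) (g l) (R l) r :=
        setIntegral_mono_on ((hI.const_mul s).const_mul _) hD measurableSet_Ioi hptw
    _ = ∑ l ∈ Λ, ∫ r in Ioi 0, dens k (cen k l) (g l) (R l) r :=
        integral_finsetSum _ fun l hl => (hR l hl).2.2.1
    _ ≤ _ := Finset.sum_le_sum fun l hl => (hR l hl).2.2.2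

end Pool.Agent.N537.CS
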