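import Pool.Agent.N537.CS.Calc
import Pool.Agent.N537.CS.Mix
import Pool.Agent.R117.RL.ShellCst
import Pool.Agent.R117.RL.Asy

/-!
The constants for closed shells in high dimension.
-/

open Set Filter Topology Real

namespace Pool.Agent.N537.CS

open Pool.Agent.R117.RL

theorem log_small {η C : ℝ} (hη : 0 < η) :
    ∀ᶠ d : ℕ in atTop, C + 3 * log (d : ℝ) ≤ 2 * d * η := by
  have h1 := (isLittleO_log_id_atTop.comp_tendsto tendsto_natCast_atTop_atTop).bound
    (by positivity : 0 < η / 3)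
  have h2 : ∀ᶠ d : ℕ in atTop, C / η ≤ (d : ℝ) :=
    tendsto_natCast_atTop_atTop.eventually_ge_atTop (C / η)
  filter_upwards [h1, h2] with d hd hd2
  simp only [Function.comp, id, Real.norm_eq_abs, Nat.abs_cast] at hd
  have h3 := (le_abs_self _).trans hd
  rw [div_le_iff₀ hη] at hd2
  linarith

theorem key_log {A c : ℝ} (hA : 0 < A) (hc : log c < 2 * rate (1 / A)) :
    ∀ᶠ d : ℕ in atTop, ∀ l : ℕ, 1 ≤ l → (l : ℝ) ≤ A * d →
    d * log c + log (4 * π ^ 2) + 2 * log (A * d + 1) + d * log d +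
      2 * log ((l + d).choose l : ℝ) ≤
      2 * d + ((d : ℝ) - 1) * (2 * log (2 * l + d - 3) - log (4 * d)) := by
  set η := rate (1 / A) - log c / 2 with hηdef
  have hη : 0 < η := by rw [hηdef]; linarith
  filter_upwards [log_small (η := η)
    (C := log (4 * π ^ 2) + 2 * log (A + 1) + 12 + 2 * log (2 * A + 1)) hη,
    eventually_ge_atTop 6] with d hd hd6 l hl hlA
  have hd' : (6 : ℝ) ≤ d := by exact_mod_cast hd6
  have hl' : (1 : ℝ) ≤ l := by exact_mod_cast hl
  have hd0 : (0 : ℝ) < d := by linarith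
  have hl0 : (0 : ℝ) < l := by linarith
  set y : ℝ := (d : ℝ) / l with hy
  have hy0 : 0 < y := by positivity
  have hyA : 1 / A ≤ y := by
    rw [hy, div_le_div_iff₀ hA hl0]
    linarith
  have hrate : η + log c / 2 ≤ rate y := by
    rw [hηdef, sub_add_cancel]
    exact rate_mono (mem_Ioi.2 (by positivity)) (mem_Ioi.2 hy0) hyA
  have hch := log_choose hl (show 1 ≤ d by omega)
  rw [← hy] at hch
  -- the main term
  have e1 : log (2 * l + d) = log d + log 2 + log (1 + y / 2) - log y := by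
    have h1 : 2 * (l : ℝ) + d = d * 2 * (1 + y / 2) / y := by
      rw [hy]
      field_simp
    rw [h1, log_div (by positivity) (by positivity), log_mul (by positivity) (by positivity),
      log_mul (by positivity) (by positivity)]
  have e2 : log (4 * (d : ℝ)) = 2 * log 2 + log d := by
    rw [log_mul (by norm_num) (by positivity), show (4 : ℝ) = 2 ^ 2 by norm_num, log_pow]
    norm_num
  have e3 : (l : ℝ) * log (1 + y) = d * (log (1 + y) / y) := by
    rw [hy]
    field_simp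
  have hmain : 2 * (d : ℝ) + d * (2 * log (2 * l + d) - log (4 * d)) - d * log d -
      2 * (l * log (1 + y) + d * (log (1 + y) - log y)) = 2 * d * rate y := by
    rw [e1, e2, e3]
    unfold rate
    ring
  -- the corrections
  have hpos : 0 < 2 * (l : ℝ) + d - 3 := by linarith
  have h1 : log (2 * l + d) - log (2 * l + d - 3) ≤ 3 / (2 * l + d - 3) := by
    rw [← log_div (by positivity) hpos.ne']
    have h2 := log_le_sub_one_of_pos (x := (2 * (l : ℝ) + d) / (2 * l + d - 3)) (by positivity)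
    refine h2.trans (le_of_eq ?_)
    field_simp
    ring
  have h2 : (d : ℝ) * (3 / (2 * l + d - 3)) ≤ 6 := by
    rw [mul_div_assoc', div_le_iff₀ hpos]
    nlinarith
  have h3 : (d : ℝ) * (log (2 * l + d) - log (2 * l + d - 3)) ≤ 6 :=
    (mul_le_mul_of_nonneg_left h1 hd0.le).trans h2
  have h4 : log (2 * l + d - 3) ≤ log (2 * A + 1) + log d := by
    rw [← log_mul (by positivity) (by positivity)]
    apply log_le_log hpos
    nlinarith
  have h5 : log (A * d + 1) ≤ log (A + 1) + log d := by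
    rw [← log_mul (by positivity) (by positivity)]
    apply log_le_log (by positivity)
    nlinarith
  have hln2 : 0 ≤ log 2 := log_nonneg (by norm_num)
  have h6 : 2 * (d : ℝ) * (η + log c / 2) ≤ 2 * d * rate y :=
    mul_le_mul_of_nonneg_left hrate (by positivity)
  nlinarith

/-- the constants for closed shells of angular momentum `1 ≤ l ≤ A d` -/
theorem CL_big {A c : ℝ} (hA : 0 < A) (hc0 : 0 < c) (hcA : log c < 2 * rate (1 / A)) :
    ∀ᶠ k : ℕ in atTop, ∀ l g : ℕ, 1 ≤ l →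
    (l : ℝ) ≤ A * (k + 1 : ℕ) → 1 ≤ g → g ≤ (l + (k + 1)).choose l →
    (A * (k + 1 : ℕ) + 1) ^ (2 / ((k + 1 : ℕ) : ℝ)) * (c * Kcl (k + 1)) ≤
      CL k (cen k l) (sg (k + 1) / g) := by
  have h0 := (tendsto_add_atTop_nat 1).eventually (key_log hA hcA)
  filter_upwards [h0, eventually_ge_atTop 5] with k hkey hk5 l g hl hlA hg1 hg
  have hlog := hkey l hl hlA
  have hk : 1 ≤ k := by omega
  have hk' : (5 : ℝ) ≤ k := by exact_mod_cast hk5
  have hl' : (1 : ℝ) ≤ l := by exact_mod_cast hl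
  have hg0 : (0 : ℝ) < g := by exact_mod_cast hg1
  have hπ := Real.pi_pos
  have hc := cen_pos hk hl
  have hsg := sg_pos (Nat.succ_pos k)
  have hG := Ga_pos (k + 1)
  have hGs := Ga_sq (k + 1) (by omega)
  set d : ℕ := k + 1 with hd
  have hdk : (d : ℝ) = (k : ℝ) + 1 := by rw [hd]; push_cast; ring
  have hd0 : (0 : ℝ) < d := by rw [hdk]; linarith
  have hAd : 0 < A * d + 1 := by positivity
  -- the logarithmic inequality for `g` and `c`
  have hlg : log g ≤ log ((l + d).choose l : ℝ) := log_le_log hg0 (by exact_mod_cast hg)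
  have hcl : 2 * log (2 * l + d - 3) - log (4 * d) ≤ log (cen k l / k) := by
    have hpos : 0 < 2 * (l : ℝ) + d - 3 := by rw [hdk]; linarith
    have h1 : 2 * log (2 * l + d - 3) = log ((2 * (l : ℝ) + d - 3) ^ 2) := by
      rw [log_pow]
      norm_num
    rw [h1, ← log_div (by positivity) (by positivity)]
    apply log_le_log (by positivity)
    rw [div_le_div_iff₀ (by positivity) (by positivity), hdk]
    unfold cen
    nlinarith [mul_nonneg (by linarith : (0 : ℝ) ≤ l) (by linarith : (0 : ℝ) ≤ (k : ℝ)),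
      mul_nonneg (mul_nonneg (by linarith : (0 : ℝ) ≤ l) (by linarith : (0 : ℝ) ≤ (l : ℝ)))
        (by linarith : (0 : ℝ) ≤ (k : ℝ)), sq_nonneg ((l : ℝ) - 1),
      mul_nonneg (by linarith : (0 : ℝ) ≤ (l : ℝ) - 1) (by linarith : (0 : ℝ) ≤ (k : ℝ))]
  have hlog2 : d * log c + log (4 * π ^ 2) + 2 * log (A * d + 1) + d * log d + 2 * log g ≤
      2 * d + k * log (cen k l / k) := by
    have e : (d : ℝ) - 1 = k := by rw [hdk]; ring
    rw [e] at hlog
    have h1 := mul_le_mul_of_nonneg_left hcl (by linarith : (0 : ℝ) ≤ (k : ℝ))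
    linarith
  have hstar : c ^ d * (4 * π ^ 2) * (A * d + 1) ^ 2 * (d : ℝ) ^ d * (g : ℝ) ^ 2 ≤
      (exp 1) ^ (2 * d) * (cen k l / k) ^ k := by
    have hck : 0 < cen k l / k := by positivity
    have l1 : log (c ^ d * (4 * π ^ 2) * (A * d + 1) ^ 2 * (d : ℝ) ^ d * (g : ℝ) ^ 2) =
        d * log c + log (4 * π ^ 2) + 2 * log (A * d + 1) + d * log d + 2 * log g := by
      rw [log_mul (by positivity) (by positivity), log_mul (by positivity) (by positivity),
        log_mul (by positivity) (by positivity), log_mul (x := c ^ d) (by positivity)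
        (by positivity), log_pow (n := 2) (x := A * (d : ℝ) + 1),
        log_pow (n := d) (x := (d : ℝ)), log_pow (n := 2) (x := (g : ℝ)), log_pow (n := d) (x := c)]
      norm_num
    have l2 : log ((exp 1) ^ (2 * d) * (cen k l / k) ^ k) = 2 * d + k * log (cen k l / k) := by
      rw [log_mul (by positivity) (by positivity), log_pow, log_pow, log_exp]
      push_cast
      ring
    apply (log_le_log_iff (by positivity) (by positivity)).1
    rw [l1, l2]
    exact hlog2
  have hCL0 := CL_nonneg (k := k) hc (show 0 < sg d / g by positivity)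
  apply le_of_pow_le_pow_left₀ (n := d) (by omega) hCL0
  have e1 : ((A * d + 1) ^ (2 / (d : ℝ))) ^ d = (A * d + 1) ^ 2 := by
    have := pow_frac hAd.le (show 0 < d by omega) 2
    simpa using this
  rw [mul_pow, e1, mul_pow c, Kcl_pow (by omega)]
  have e2 := CL_pow hk hc (show 0 < sg (k + 1) / (g : ℝ) by positivity)
  rw [← hd, div_pow (sg d) (g : ℝ) 2, sg_sq (by omega), ← hdk] at e2
  rw [e2]
  -- now the comparison
  have h1 : ((d : ℝ) / (d + 2)) ^ d ≤ 1 := by
    apply pow_le_one₀ (by positivity)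
    rw [div_le_one (by positivity)]
    linarith
  have hG4 : Ga d ^ 4 ≤ (π ^ 2 * ((d : ℝ) ^ (d + 1) / (2 * exp 1) ^ d)) ^ 2 := by
    have := pow_le_pow_left₀ (by positivity) hGs 2
    rw [← pow_mul] at this
    exact this
  have h2 : (A * d + 1) ^ 2 * (c ^ d * ((4 : ℝ) ^ d * Ga d ^ 4)) * (g : ℝ) ^ 2 ≤
      (d : ℝ) ^ d * (π ^ 2 / 4) * (cen k l / k) ^ k * (d : ℝ) ^ 2 := by
    have h3 : (A * d + 1) ^ 2 * (c ^ d * ((4 : ℝ) ^ d * Ga d ^ 4)) * (g : ℝ) ^ 2 ≤
        (A * d + 1) ^ 2 * (c ^ d *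
          ((4 : ℝ) ^ d * (π ^ 2 * ((d : ℝ) ^ (d + 1) / (2 * exp 1) ^ d)) ^ 2)) *
          (g : ℝ) ^ 2 := by
      gcongr
    refine h3.trans ?_
    have h4 : (A * d + 1) ^ 2 * (c ^ d *
          ((4 : ℝ) ^ d * (π ^ 2 * ((d : ℝ) ^ (d + 1) / (2 * exp 1) ^ d)) ^ 2)) *
          (g : ℝ) ^ 2 = (c ^ d * (4 * π ^ 2) * (A * d + 1) ^ 2 * (d : ℝ) ^ d * (g : ℝ) ^ 2) *
          ((d : ℝ) ^ d * (π ^ 2 / 4) * (d : ℝ) ^ 2 / exp 1 ^ (2 * d)) := by
      have h5 : ((2 * exp 1) ^ d) ^ 2 = (4 : ℝ) ^ d * exp 1 ^ (2 * d) := by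
        rw [← pow_mul, mul_comm d 2, mul_pow, pow_mul 2 2 d]
        norm_num
      rw [mul_pow (π ^ 2), div_pow, h5]
      have h6 : (0 : ℝ) < exp 1 := exp_pos 1
      field_simp
      ring
    rw [h4]
    have h5 := mul_le_mul_of_nonneg_right hstar
      (show 0 ≤ (d : ℝ) ^ d * (π ^ 2 / 4) * (d : ℝ) ^ 2 / exp 1 ^ (2 * d) by positivity)
    refine h5.trans (le_of_eq ?_)
    have h6 : (0 : ℝ) < exp 1 := exp_pos 1
    field_simp
  calc (A * d + 1) ^ 2 * (c ^ d * (((d : ℝ) / (d + 2)) ^ d * 4 ^ d * π ^ d * Ga d ^ 2))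
      ≤ (A * d + 1) ^ 2 * (c ^ d * (1 * 4 ^ d * π ^ d * Ga d ^ 2)) := by gcongr
    _ = (A * d + 1) ^ 2 * (c ^ d * ((4 : ℝ) ^ d * Ga d ^ 4)) * (g : ℝ) ^ 2 *
        (π ^ d / (Ga d ^ 2 * (g : ℝ) ^ 2)) := by
        field_simp
    _ ≤ (d : ℝ) ^ d * (π ^ 2 / 4) * (cen k l / k) ^ k * (d : ℝ) ^ 2 *
        (π ^ d / (Ga d ^ 2 * (g : ℝ) ^ 2)) := mul_le_mul_of_nonneg_right h2 (by positivity)
    _ = _ := by
        field_simp

end Pool.Agent.N537.CS
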