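import Pool.Agent.R117.RL.ShellFull

/-!
Closed shells: the energy inequality for the radial profiles, before the inequality of the means.
-/

open MeasureTheory Set Filter Topology
open scoped InnerProductSpace

namespace Pool.Agent.N537.CS

open Pool.Agent.R117.RL

/-- the radial energy density of a closed shell: `q` functions, centrifugal coefficient `c`,
density `R` -/
noncomputable def dens (k : ℕ) (c q : ℝ) (R : ℝ → ℝ) (r : ℝ) : ℝ :=
  q * (Real.pi ^ 2 / 4 * (sg (k + 1) / q * r ^ k * R r) ^ 3 +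
    c * ((sg (k + 1) / q * r ^ k * R r) / r ^ 2))

theorem radial3 {k N : ℕ} {lam q : ℝ} (hk : 1 ≤ k) (hq : 0 < q) (hl : 0 ≤ lam)
    (hαα : 0 < ((k : ℝ) / 2) ^ 2 - (k : ℝ) / 2 + lam) (F F' : Fin N → ℝ → ℂ)
    (hF : ∀ n r, 0 < r → HasDerivAt (F n) (F' n r) r) (hc : ∀ n, ContinuousOn (F' n) (Ioi 0))
    (h2 : ∀ n, Integrable (fun x : E (k + 1) => ‖F n ‖x‖‖ ^ 2))
    (hd : ∀ n, Integrable (fun x : E (k + 1) => ‖F' n ‖x‖‖ ^ 2 + lam * (‖F n ‖x‖‖ ^ 2 / ‖x‖ ^ 2)))
    (ho : ∀ n m, ∫ x : E (k + 1), star (F n ‖x‖) * F m ‖x‖ = if n = m then (q : ℂ) else 0) :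
    IntegrableOn (dens k (((k : ℝ) / 2) ^ 2 - (k : ℝ) / 2 + lam) q (fun r => ∑ n, ‖F n r‖ ^ 2))
      (Ioi 0) ∧
    (∫ r in Ioi 0, dens k (((k : ℝ) / 2) ^ 2 - (k : ℝ) / 2 + lam) q
      (fun r => ∑ n, ‖F n r‖ ^ 2) r) ≤
      ∑ n, ∫ x : E (k + 1), (‖F' n ‖x‖‖ ^ 2 + lam * (‖F n ‖x‖‖ ^ 2 / ‖x‖ ^ 2)) := by
  have hk' : (1 : ℝ) ≤ k := by exact_mod_cast hk
  have hsg := sg_pos (Nat.succ_pos k)
  set s := sg (k + 1) / q with hsdef
  have hs : 0 < s := by positivity
  have hsq : sg (k + 1) = q * s := by rw [hsdef]; field_simp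
  set α : ℝ := (k : ℝ) / 2 with hα
  have hα0 : 0 < α := by rw [hα]; positivity
  set c := α ^ 2 - α + lam with hcdef
  set w : ℝ → ℝ := fun r => √s * r ^ α with hw
  set w' : ℝ → ℝ := fun r => √s * (α * r ^ (α - 1)) with hw'
  have hws : ∀ r, 0 < r → w r ^ 2 = s * r ^ k := by
    intro r hr
    rw [hw]
    simp only
    rw [mul_pow, Real.sq_sqrt hs.le, ← Real.rpow_natCast (r ^ α) 2, ← Real.rpow_mul hr.le, hα]
    congr 1
    rw [← Real.rpow_natCast r k]
    congr 1
    push_cast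
    ring
  have hwd : ∀ r, 0 < r → HasDerivAt w (w' r) r := fun r hr =>
    (Real.hasDerivAt_rpow_const (Or.inl hr.ne')).const_mul _
  have hww : ∀ r, 0 < r → w' r = α / r * w r := by
    intro r hr
    rw [hw, hw']
    simp only
    rw [Real.rpow_sub_one hr.ne']
    field_simp
  set f : Fin N → ℝ → ℂ := fun n r => w r • F n r with hf
  set f' : Fin N → ℝ → ℂ := fun n r => w r • F' n r + w' r • F n r with hf'
  have hfd : ∀ n r, 0 < r → HasDerivAt (f n) (f' n r) r := fun n r hr =>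
    (hwd r hr).smul (hF n r hr)
  have hcF : ∀ n, ContinuousOn (F n) (Ioi 0) := fun n r hr =>
    (hF n r hr).continuousAt.continuousWithinAt
  have hcw : ContinuousOn w (Ioi 0) := fun r hr => (hwd r hr).continuousAt.continuousWithinAt
  have hcw' : ContinuousOn w' (Ioi 0) := by
    apply ContinuousOn.mul continuousOn_const
    apply ContinuousOn.mul continuousOn_const
    exact ContinuousOn.rpow_const continuousOn_id fun r hr => Or.inl (ne_of_gt hr)
  have hcf' : ∀ n, ContinuousOn (f' n) (Ioi 0) := fun n =>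
    (hcw.smul (hc n)).add (hcw'.smul (hcF n))
  have hfn : ∀ n, ∀ r ∈ Ioi (0 : ℝ), s * (r ^ k • ‖F n r‖ ^ 2) = ‖f n r‖ ^ 2 := by
    intro n r hr
    rw [hf]
    simp only
    rw [norm_smul, mul_pow, Real.norm_eq_abs, sq_abs, hws r hr, smul_eq_mul]
    ring
  have hfφ : ∀ n, ∀ r ∈ Ioi (0 : ℝ),
      s * (r ^ k • (‖F' n r‖ ^ 2 + lam * (‖F n r‖ ^ 2 / r ^ 2))) =
      ‖f' n r - (α / r) • f n r‖ ^ 2 + lam * (‖f n r‖ ^ 2 / r ^ 2) := by
    intro n r hr
    have e : f' n r - (α / r) • f n r = w r • F' n r := by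
      rw [hf, hf']
      simp only
      rw [hww r hr, smul_smul]
      abel
    rw [e, norm_smul, mul_pow, Real.norm_eq_abs, sq_abs, hws r hr, smul_eq_mul, ← hfn n r hr,
      smul_eq_mul]
    ring
  have h2' : ∀ n, IntegrableOn (fun r => ‖f n r‖ ^ 2) (Ioi 0) := fun n =>
    IntegrableOn.congr_fun
      (Integrable.const_mul ((polar_int (h := fun y => ‖F n y‖ ^ 2)).1 (h2 n)) s) (hfn n)
      measurableSet_Ioi
  have hφ' : ∀ n, IntegrableOn (fun r => ‖f' n r - (α / r) • f n r‖ ^ 2 +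
      lam * (‖f n r‖ ^ 2 / r ^ 2)) (Ioi 0) := fun n =>
    IntegrableOn.congr_fun
      (Integrable.const_mul
        ((polar_int (h := fun y => ‖F' n y‖ ^ 2 + lam * (‖F n y‖ ^ 2 / y ^ 2))).1 (hd n)) s)
      (hfφ n) measurableSet_Ioi
  have ho' : ∀ n m, ∫ r in Ioi 0, star (f n r) * f m r = if n = m then (1 : ℂ) else 0 := by
    intro n m
    have h3 := polar (k := k) (fun y => star (F n y) * F m y)
    rw [ho n m, hsq] at h3
    have h4 : ∫ r in Ioi 0, star (f n r) * f m r =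
        s • ∫ y in Ioi (0 : ℝ), y ^ k • (star (F n y) * F m y) := by
      rw [← integral_smul]
      apply setIntegral_congr_fun measurableSet_Ioi
      intro r hr
      have e : star (f n r) * f m r = (w r ^ 2) • (star (F n r) * F m r) := by
        rw [hf]
        simp only [Complex.real_smul, star_mul', Complex.star_def, Complex.conj_ofReal]
        push_cast
        ring
      simp only
      rw [e, hws r hr, mul_smul]
    rw [h4]
    rw [mul_smul] at h3
    have hqc : (q : ℂ) ≠ 0 := by exact_mod_cast hq.ne'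
    rw [Complex.real_smul (x := q)] at h3
    by_cases hnm : n = m
    · rw [if_pos hnm] at h3 ⊢
      have h5 : (q : ℂ) * (s • ∫ y in Ioi (0 : ℝ), y ^ k • (star (F n y) * F m y)) = q * 1 := by
        rw [mul_one]
        exact h3.symm
      exact mul_left_cancel₀ hqc h5
    · rw [if_neg hnm] at h3 ⊢
      rcases mul_eq_zero.1 h3.symm with h5 | h5
      · exact absurd h5 hqc
      · exact h5
  have hmain := halfline2 hα0 hl hαα f f' hfd hcf' h2' hφ' ho'
  rw [← hcdef] at hmain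
  have hsum : ∀ r ∈ Ioi (0 : ℝ), ∑ n, ‖f n r‖ ^ 2 = s * r ^ k * ∑ n, ‖F n r‖ ^ 2 := by
    intro r hr
    rw [Finset.mul_sum]
    refine Finset.sum_congr rfl fun n _ => ?_
    rw [← hfn n r hr, smul_eq_mul]
    ring
  have hden : ∀ r ∈ Ioi (0 : ℝ), q * (Real.pi ^ 2 / 4 * (∑ n, ‖f n r‖ ^ 2) ^ 3 +
      c * ((∑ n, ‖f n r‖ ^ 2) / r ^ 2)) = dens k c q (fun r => ∑ n, ‖F n r‖ ^ 2) r := by
    intro r hr
    unfold dens
    rw [hsum r hr]
  have e2 : ∀ n, ∫ x : E (k + 1), (‖F' n ‖x‖‖ ^ 2 + lam * (‖F n ‖x‖‖ ^ 2 / ‖x‖ ^ 2)) =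
      q * ∫ r in Ioi 0, (‖f' n r - (α / r) • f n r‖ ^ 2 + lam * (‖f n r‖ ^ 2 / r ^ 2)) := by
    intro n
    have h3 := polar (k := k) (fun y => ‖F' n y‖ ^ 2 + lam * (‖F n y‖ ^ 2 / y ^ 2))
    rw [h3, hsq, smul_eq_mul, mul_assoc, ← integral_const_mul s]
    congr 1
    exact setIntegral_congr_fun measurableSet_Ioi (hfφ n)
  refine ⟨IntegrableOn.congr_fun (Integrable.const_mul hmain.1 q) hden measurableSet_Ioi, ?_⟩
  rw [Finset.sum_congr rfl fun n _ => e2 n, ← Finset.mul_sum,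
    ← setIntegral_congr_fun measurableSet_Ioi hden, integral_const_mul]
  exact mul_le_mul_of_nonneg_left hmain.2 hq.le

/-- the radial profile of a closed shell system -/
theorem shell_profile {k g m N : ℕ} (hk : 1 ≤ k) (hg : 0 < g) {P : Fin g → E (k + 1) → ℝ}
    (hS : Shell (m + 1) P) (u : Fin N → Fin g → E (k + 1) → ℂ) (h : ShellSystem P u) :
    ∃ R : ℝ → ℝ, (∀ r, 0 ≤ R r) ∧ ContinuousOn R (Ioi 0) ∧
      (∀ x : E (k + 1), ∑ n, ∑ j, ‖u n j x‖ ^ 2 = R ‖x‖) ∧
      IntegrableOn (dens k (((k : ℝ) / 2) ^ 2 - (k : ℝ) / 2 + ((m : ℝ) + 1) * ((m : ℝ) + k)) g R)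
        (Ioi 0) ∧
      (∫ r in Ioi 0, dens k (((k : ℝ) / 2) ^ 2 - (k : ℝ) / 2 + ((m : ℝ) + 1) * ((m : ℝ) + k)) g R r)
        ≤ ∑ n, ∑ j, ∫ x, grad2 (u n j) x := by
  have hk' : (1 : ℝ) ≤ k := by exact_mod_cast hk
  have hm0 : (0 : ℝ) ≤ m := Nat.cast_nonneg m
  obtain ⟨G, hG, hform⟩ := h.form
  set lam : ℝ := ((m : ℝ) + 1) * ((m : ℝ) + k) with hlam
  have hl : 0 ≤ lam := by positivity
  have hαα : 0 < ((k : ℝ) / 2) ^ 2 - (k : ℝ) / 2 + lam := by
    rw [hlam]
    nlinarith [sq_nonneg ((k : ℝ) / 2 - 1 / 2)]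
  have hq : (0 : ℝ) < g := by exact_mod_cast hg
  have hGd : ∀ n r, 0 < r → HasDerivAt (G n) (deriv (G n) r) r := fun n r hr =>
    (((hG n).differentiableOn one_ne_zero).differentiableAt (Ioi_mem_nhds hr)).hasDerivAt
  have hGc : ∀ n, ContinuousOn (deriv (G n)) (Ioi 0) := fun n =>
    (hG n).continuousOn_deriv_of_isOpen isOpen_Ioi le_rfl
  have hGc0 : ∀ n, ContinuousOn (G n) (Ioi 0) := fun n => (hG n).continuousOn
  set F : Fin N → ℝ → ℂ := fun n r => (r ^ (m + 1)) • G n r with hF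
  set F' : Fin N → ℝ → ℂ := fun n r =>
    (r ^ (m + 1)) • deriv (G n) r + (((m : ℝ) + 1) * r ^ m) • G n r with hF'
  have hFd : ∀ n r, 0 < r → HasDerivAt (F n) (F' n r) r := by
    intro n r hr
    have h1 : HasDerivAt (fun t : ℝ => t ^ (m + 1)) (((m : ℝ) + 1) * r ^ m) r := by
      have := hasDerivAt_pow (m + 1) r
      simpa using this
    exact h1.smul (hGd n r hr)
  have hFc : ∀ n, ContinuousOn (F' n) (Ioi 0) := fun n =>
    ((continuousOn_id.pow (m + 1)).smul (hGc n)).add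
      ((continuousOn_const.mul (continuousOn_id.pow m)).smul (hGc0 n))
  have hsum : ∀ n x, ∑ j, ‖u n j x‖ ^ 2 = ‖F n ‖x‖‖ ^ 2 := by
    intro n x
    have h1 : ∀ j, ‖u n j x‖ ^ 2 = ‖G n ‖x‖‖ ^ 2 * P j x ^ 2 := by
      intro j
      rw [hform, norm_mul, mul_pow, Complex.norm_real, Real.norm_eq_abs, sq_abs]
    rw [Finset.sum_congr rfl fun j _ => h1 j, ← Finset.mul_sum, hS.square x, hF]
    simp only
    rw [norm_smul, mul_pow, Real.norm_eq_abs, sq_abs, ← pow_mul, mul_comm 2 (m + 1)]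
    ring
  have hne : ∀ᵐ x : E (k + 1), x ≠ 0 := by
    rw [ae_iff]
    simp
  have hgrad : ∀ n, ∀ᵐ x : E (k + 1), ∑ j, grad2 (u n j) x =
      ‖F' n ‖x‖‖ ^ 2 + lam * (‖F n ‖x‖‖ ^ 2 / ‖x‖ ^ 2) := by
    intro n
    filter_upwards [hne] with x hx
    have h1 : ∀ j, u n j = fun y => G n ‖y‖ * (P j y : ℂ) := fun j => funext (hform n j)
    simp only [h1]
    rw [grad_shell hS hx (hGd n ‖x‖ (norm_pos_iff.2 hx)), hlam]
    congr 2
    push_cast
    ring
  have hmeas : ∀ n j, AEStronglyMeasurable (u n j) volume := by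
    intro n j
    have h1 : ContinuousOn (u n j) {0}ᶜ := by
      have h2 : u n j = fun y => G n ‖y‖ * (P j y : ℂ) := funext (hform n j)
      rw [h2]
      apply ContinuousOn.mul
      · apply (hGc0 n).comp continuous_norm.continuousOn
        intro x hx
        exact norm_pos_iff.2 hx
      · exact (Complex.continuous_ofReal.comp (hS.smooth j).continuous).continuousOn
    have h2 := h1.aestronglyMeasurable (μ := volume) isOpen_compl_singleton.measurableSet
    rwa [restrict_compl_singleton] at h2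
  have hprod : ∀ n n' j, Integrable (fun x => star (u n j x) * u n' j x) := by
    intro n n' j
    refine Integrable.mono' ((h.square n j).add (h.square n' j)) ?_ ?_
    · exact (continuous_star.comp_aestronglyMeasurable (hmeas n j)).mul (hmeas n' j)
    · refine Eventually.of_forall fun x => ?_
      rw [norm_mul, norm_star]
      simp only [Pi.add_apply]
      nlinarith [sq_nonneg (‖u n j x‖ - ‖u n' j x‖), sq_nonneg ‖u n j x‖, sq_nonneg ‖u n' j x‖]
  have horth : ∀ n n', ∫ x : E (k + 1), star (F n ‖x‖) * F n' ‖x‖ =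
      if n = n' then ((g : ℝ) : ℂ) else 0 := by
    intro n n'
    have h1 : ∀ x : E (k + 1), star (F n ‖x‖) * F n' ‖x‖ = ∑ j, star (u n j x) * u n' j x := by
      intro x
      have h2 : ∀ j, star (u n j x) * u n' j x =
          (P j x ^ 2 : ℝ) • (star (G n ‖x‖) * G n' ‖x‖) := by
        intro j
        rw [hform, hform]
        simp only [Complex.real_smul, star_mul', Complex.star_def, Complex.conj_ofReal]
        push_cast
        ring
      rw [Finset.sum_congr rfl fun j _ => h2 j, ← Finset.sum_smul, hS.square x, hF]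
      simp only [Complex.real_smul, star_mul', Complex.star_def, Complex.conj_ofReal]
      push_cast
      ring
    simp only [h1]
    rw [integral_finsetSum _ fun j _ => hprod n n' j]
    rw [Finset.sum_congr rfl fun j _ => h.orthonormal n n' j j]
    by_cases hnn : n = n'
    · simp [hnn]
    · simp [hnn]
  have h2 : ∀ n, Integrable (fun x : E (k + 1) => ‖F n ‖x‖‖ ^ 2) := by
    intro n
    have h3 : Integrable (fun x => ∑ j, ‖u n j x‖ ^ 2) :=
      integrable_finsetSum _ fun j _ => h.square n j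
    simp only [hsum] at h3
    exact h3
  have hd : ∀ n, Integrable (fun x : E (k + 1) =>
      ‖F' n ‖x‖‖ ^ 2 + lam * (‖F n ‖x‖‖ ^ 2 / ‖x‖ ^ 2)) := by
    intro n
    have h3 : Integrable (fun x => ∑ j, grad2 (u n j) x) :=
      integrable_finsetSum _ fun j _ => h.energy n j
    exact h3.congr (hgrad n)
  have hmain := radial3 hk hq hl hαα F F' hFd hFc h2 hd horth
  refine ⟨fun r => ∑ n, ‖F n r‖ ^ 2, fun r => Finset.sum_nonneg fun n _ => sq_nonneg _, ?_, ?_,
    hmain.1, hmain.2.trans (le_of_eq ?_)⟩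
  · apply continuousOn_finsetSum
    intro n _
    have : ContinuousOn (F n) (Ioi 0) := fun r hr => (hFd n r hr).continuousAt.continuousWithinAt
    exact this.norm.pow 2
  · intro x
    exact Finset.sum_congr rfl fun n _ => hsum n x
  · refine Finset.sum_congr rfl fun n _ => ?_
    rw [← integral_finsetSum _ fun j _ => h.energy n j]
    exact (integral_congr_ae (hgrad n)).symm

end Pool.Agent.N537.CS
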