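import Pool.Agent.N537.CS.High

/-!
Closed shells with several angular momenta in high dimension.
-/

open MeasureTheory Set Filter Topology

namespace Pool.Agent.N537.CS

open Pool.Agent.R117.RL

/-- the multiplets of angular momentum zero are constants -/
theorem shell_const {d g : ℕ} {P : Fin g → E d → ℝ} (hS : Shell 0 P) (j : Fin g) (x y : E d) :
    P j x = P j y := by
  apply is_const_of_fderiv_eq_zero (𝕜 := ℝ) ((hS.smooth j).differentiable one_ne_zero)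
  intro z
  have h1 := hS.gradient z
  simp only [Nat.cast_zero, mul_zero, zero_mul, zero_add] at h1
  have h2 := (Finset.sum_eq_zero_iff_of_nonneg (fun j _ =>
    Finset.sum_nonneg fun i _ => sq_nonneg _)).1 h1 j (Finset.mem_univ j)
  have h3 : ∀ i, fderiv ℝ (P j) z (EuclideanSpace.single i 1) = 0 := by
    intro i
    have h4 := (Finset.sum_eq_zero_iff_of_nonneg (fun i _ => sq_nonneg _)).1 h2 i
      (Finset.mem_univ i)
    exact pow_eq_zero_iff two_ne_zero |>.1 h4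
  ext v
  have h5 := sum_coord v (fderiv ℝ (P j) z)
  rw [← h5]
  simp [h3]

/-- the system of the functions of a closed shell of angular momentum zero is radial -/
theorem shell_zero {k g N : ℕ} (hk : 3 ≤ k) {P : Fin g → E (k + 1) → ℝ} (hS : Shell 0 P)
    (u : Fin N → Fin g → E (k + 1) → ℂ) (h : ShellSystem P u) :
    Integrable (fun x : E (k + 1) => (∑ n, ∑ j, ‖u n j x‖ ^ 2) ^ (1 + 2 / ((k + 1 : ℕ) : ℝ))) ∧
    CC (k + 1) (sg (k + 1)) *
      (∫ x : E (k + 1), (∑ n, ∑ j, ‖u n j x‖ ^ 2) ^ (1 + 2 / ((k + 1 : ℕ) : ℝ))) ≤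
      ∑ n, ∑ j, ∫ x, grad2 (u n j) x := by
  set e : Fin N × Fin g ≃ Fin (N * g) := finProdFinEquiv with he
  set v : Fin (N * g) → E (k + 1) → ℂ := fun m => u (e.symm m).1 (e.symm m).2 with hv
  obtain ⟨G, hG, hform⟩ := h.form
  have hR : RadialSystem v := by
    refine ⟨?_, ?_, ?_, ?_, ?_⟩
    · intro m x y hxy
      simp only [hv, hform]
      rw [hxy, shell_const hS _ x y]
    · intro m
      have h1 : v m = fun x => G (e.symm m).1 ‖x‖ * (P (e.symm m).2 x : ℂ) := funext fun x => by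
        simp only [hv, hform]
      rw [h1]
      apply ContDiffOn.mul
      · apply (hG (e.symm m).1).comp
        · intro x hx
          exact (contDiffAt_norm ℝ hx).contDiffWithinAt
        · intro x hx
          exact norm_pos_iff.2 hx
      · exact (Complex.ofRealCLM.contDiff.comp (hS.smooth _)).contDiffOn
    · exact fun m => h.square _ _
    · exact fun m => h.energy _ _
    · intro m m'
      simp only [hv]
      rw [h.orthonormal]
      by_cases hm : m = m'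
      · simp [hm]
      · rw [if_neg hm, if_neg]
        rintro ⟨h1, h2⟩
        exact hm (e.symm.injective (Prod.ext h1 h2))
  have h1 := radial_system hk v hR
  have h2 : ∀ f : Fin N → Fin g → ℝ, ∑ m, f (e.symm m).1 (e.symm m).2 = ∑ n, ∑ j, f n j := by
    intro f
    rw [← Fintype.sum_prod_type' f]
    exact Equiv.sum_comp e.symm (fun p : Fin N × Fin g => f p.1 p.2)
  have h3 : ∀ x, ∑ m, ‖v m x‖ ^ 2 = ∑ n, ∑ j, ‖u n j x‖ ^ 2 := fun x =>
    h2 fun n j => ‖u n j x‖ ^ 2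
  have h4 : ∑ m, ∫ x, grad2 (v m) x = ∑ n, ∑ j, ∫ x, grad2 (u n j) x :=
    h2 fun n j => ∫ x, grad2 (u n j) x
  simp only [h3] at h1
  rw [h4] at h1
  exact h1

/-- the sum of finitely many systems -/
theorem sum_bound {d : ℕ} (hd : 1 ≤ d) {Λ : Finset ℕ} {ρ : ℕ → E d → ℝ} {T : ℕ → ℝ} {K : ℝ}
    (hK : 0 ≤ K) (h0 : ∀ l x, 0 ≤ ρ l x)
    (hi : ∀ l ∈ Λ, Integrable (fun x => ρ l x ^ (1 + 2 / (d : ℝ))))
    (hb : ∀ l ∈ Λ, (Λ.card : ℝ) ^ (2 / (d : ℝ)) * K * (∫ x, ρ l x ^ (1 + 2 / (d : ℝ))) ≤ T l) :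
    Integrable (fun x => (∑ l ∈ Λ, ρ l x) ^ (1 + 2 / (d : ℝ))) ∧
    K * (∫ x, (∑ l ∈ Λ, ρ l x) ^ (1 + 2 / (d : ℝ))) ≤ ∑ l ∈ Λ, T l := by
  have hd0 : (0 : ℝ) < d := by exact_mod_cast hd
  set p : ℝ := 1 + 2 / (d : ℝ) with hp
  have hp1 : 1 ≤ p := by
    have : 0 < 2 / (d : ℝ) := by positivity
    linarith
  have hp2 : p - 1 = 2 / (d : ℝ) := by rw [hp]; ring
  have hpt : ∀ x, (∑ l ∈ Λ, ρ l x) ^ p ≤
      (Λ.card : ℝ) ^ (2 / (d : ℝ)) * ∑ l ∈ Λ, ρ l x ^ p := by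
    intro x
    rw [← hp2]
    exact Real.rpow_sum_le_const_mul_sum_rpow_of_nonneg Λ hp1 fun l _ => h0 l x
  have hsum : Integrable (fun x => (Λ.card : ℝ) ^ (2 / (d : ℝ)) * ∑ l ∈ Λ, ρ l x ^ p) :=
    (integrable_finsetSum _ hi).const_mul _
  have hm : ∀ l ∈ Λ, AEMeasurable (ρ l) volume := by
    intro l hl
    have h1 : AEMeasurable (fun x => (ρ l x ^ p) ^ (1 / p)) volume :=
      (hi l hl).aestronglyMeasurable.aemeasurable.pow_const _
    have h2 : (fun x => (ρ l x ^ p) ^ (1 / p)) = ρ l := by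
      funext x
      rw [← Real.rpow_mul (h0 l x), mul_one_div_cancel (by positivity), Real.rpow_one]
    rwa [h2] at h1
  have hmeas : AEStronglyMeasurable (fun x => (∑ l ∈ Λ, ρ l x) ^ p) volume :=
    ((Finset.aemeasurable_fun_sum Λ hm).pow_const _).aestronglyMeasurable
  have hI : Integrable (fun x => (∑ l ∈ Λ, ρ l x) ^ p) := by
    refine hsum.mono' hmeas (Eventually.of_forall fun x => ?_)
    rw [Real.norm_eq_abs, abs_of_nonneg (Real.rpow_nonneg (Finset.sum_nonneg fun l _ => h0 l x) _)]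
    exact hpt x
  refine ⟨hI, ?_⟩
  have h1 := mul_le_mul_of_nonneg_left (integral_mono hI hsum hpt) hK
  rw [integral_const_mul, integral_finsetSum _ hi] at h1
  refine h1.trans ?_
  rw [Finset.mul_sum, Finset.mul_sum]
  refine Finset.sum_le_sum fun l hl => ?_
  refine le_trans (le_of_eq ?_) (hb l hl)
  ring

theorem root_two {A : ℝ} (hA : 0 < A) :
    Tendsto (fun d : ℕ => (A * d + 1) ^ (2 / (d : ℝ))) atTop (𝓝 1) := by
  have h1 := tendsto_rpow_div_mul_add (2 * A) 1 (-1) (by norm_num)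
  have h2 : Tendsto (fun d : ℕ => A * (d : ℝ) + 1) atTop atTop :=
    tendsto_atTop_add_const_right _ _ (tendsto_natCast_atTop_atTop.const_mul_atTop hA)
  refine (h1.comp h2).congr' ?_
  filter_upwards [eventually_gt_atTop 0] with d hd
  have hd0 : (0 : ℝ) < d := by exact_mod_cast hd
  simp only [Function.comp]
  congr 1
  have : 1 * (A * (d : ℝ) + 1) + -1 = A * d := by ring
  rw [this]
  field_simp

theorem CC_big {A c : ℝ} (hA : 0 < A) (hc0 : 0 < c) (hc : Real.log c < 2 * rate (1 / A)) :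
    ∀ᶠ d : ℕ in atTop, (A * d + 1) ^ (2 / (d : ℝ)) * (c * Kcl d) ≤ CC d (sg d) := by
  have hce : c < Real.exp 1 ^ 2 / 4 := by
    have h1 := rate_le (y := 1 / A) (by positivity)
    have h2 : Real.log c < 2 * (1 - Real.log 2) := by linarith
    have h3 : Real.exp (2 * (1 - Real.log 2)) = Real.exp 1 ^ 2 / 4 := by
      have h4 : 2 * (1 - Real.log 2) = 1 + 1 - (Real.log 2 + Real.log 2) := by ring
      rw [h4, Real.exp_sub, Real.exp_add, Real.exp_add, Real.exp_log (by norm_num)]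
      ring
    rw [← h3]
    exact (Real.log_lt_iff_lt_exp hc0).1 h2
  obtain ⟨c', hc1, hc2⟩ := exists_between hce
  have h5 : 1 < c' / c := (one_lt_div hc0).2 hc1
  filter_upwards [ratio hc2, (root_two hA).eventually (gt_mem_nhds h5)] with d hd hd2
  refine le_trans ?_ hd
  have hK : 0 ≤ Kcl d := by
    have := om_pos d
    unfold Kcl
    positivity
  rw [← mul_assoc]
  apply mul_le_mul_of_nonneg_right _ hK
  have h6 := mul_le_mul_of_nonneg_right hd2.le hc0.le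
  rwa [div_mul_cancel₀ _ hc0.ne'] at h6

/-- **Closed shells with all angular momenta up to a multiple of the dimension.** -/
theorem high {A c : ℝ} (hA : 0 < A) (hc0 : 0 < c) (hc : Real.log c < 2 * rate (1 / A)) :
    ∀ᶠ d : ℕ in atTop, ∀ (Λ : Finset ℕ) (g N : ℕ → ℕ)
    (P : ∀ l, Fin (g l) → E d → ℝ) (u : ∀ l, Fin (N l) → Fin (g l) → E d → ℂ),
    (∀ l ∈ Λ, (l : ℝ) ≤ A * d) → (∀ l ∈ Λ, 1 ≤ g l ∧ g l ≤ (l + d - 1).choose l) →
    Mixed Λ g N P u →
    Integrable (fun x => (∑ l ∈ Λ, ∑ n, ∑ j, ‖u l n j x‖ ^ 2) ^ (1 + 2 / (d : ℝ))) ∧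
    c * Kcl d * (∫ x, (∑ l ∈ Λ, ∑ n, ∑ j, ‖u l n j x‖ ^ 2) ^ (1 + 2 / (d : ℝ))) ≤
      ∑ l ∈ Λ, ∑ n, ∑ j, ∫ x, grad2 (u l n j) x := by
  have h1 : ∀ᶠ k : ℕ in atTop, ∀ (Λ : Finset ℕ) (g N : ℕ → ℕ)
    (P : ∀ l, Fin (g l) → E (k + 1) → ℝ) (u : ∀ l, Fin (N l) → Fin (g l) → E (k + 1) → ℂ),
    (∀ l ∈ Λ, (l : ℝ) ≤ A * (k + 1 : ℕ)) →
    (∀ l ∈ Λ, 1 ≤ g l ∧ g l ≤ (l + (k + 1) - 1).choose l) → Mixed Λ g N P u →
    Integrable (fun x => (∑ l ∈ Λ, ∑ n, ∑ j, ‖u l n j x‖ ^ 2) ^ (1 + 2 / ((k + 1 : ℕ) : ℝ))) ∧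
    c * Kcl (k + 1) *
      (∫ x, (∑ l ∈ Λ, ∑ n, ∑ j, ‖u l n j x‖ ^ 2) ^ (1 + 2 / ((k + 1 : ℕ) : ℝ))) ≤
      ∑ l ∈ Λ, ∑ n, ∑ j, ∫ x, grad2 (u l n j) x := by
    filter_upwards [CL_big hA hc0 hc, (tendsto_add_atTop_nat 1).eventually (CC_big hA hc0 hc),
      eventually_ge_atTop 3] with k hCL hCC hk Λ g N P u hΛ hg h
    have hK : 0 ≤ c * Kcl (k + 1) := by
      have := om_pos (k + 1)
      unfold Kcl
      positivity
    have hcard : (Λ.card : ℝ) ≤ A * (k + 1 : ℕ) + 1 := by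
      have h2 : Λ ⊆ Finset.range (⌊A * (k + 1 : ℕ)⌋₊ + 1) := by
        intro l hl
        rw [Finset.mem_range, Nat.lt_succ_iff]
        exact Nat.le_floor (hΛ l hl)
      have h3 := Finset.card_le_card h2
      rw [Finset.card_range] at h3
      have h4 := Nat.floor_le (show 0 ≤ A * (k + 1 : ℕ) by positivity)
      have h5 : (Λ.card : ℝ) ≤ (⌊A * (k + 1 : ℕ)⌋₊ : ℝ) + 1 := by exact_mod_cast h3
      linarith
    have hpow : (Λ.card : ℝ) ^ (2 / ((k + 1 : ℕ) : ℝ)) * (c * Kcl (k + 1)) ≤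
        (A * (k + 1 : ℕ) + 1) ^ (2 / ((k + 1 : ℕ) : ℝ)) * (c * Kcl (k + 1)) :=
      mul_le_mul_of_nonneg_right (Real.rpow_le_rpow (Nat.cast_nonneg _) hcard (by positivity)) hK
    have hex : ∀ l ∈ Λ, Integrable (fun x : E (k + 1) =>
          (∑ n, ∑ j, ‖u l n j x‖ ^ 2) ^ (1 + 2 / ((k + 1 : ℕ) : ℝ))) ∧
        (Λ.card : ℝ) ^ (2 / ((k + 1 : ℕ) : ℝ)) * (c * Kcl (k + 1)) * (∫ x : E (k + 1),
          (∑ n, ∑ j, ‖u l n j x‖ ^ 2) ^ (1 + 2 / ((k + 1 : ℕ) : ℝ))) ≤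
        ∑ n, ∑ j, ∫ x, grad2 (u l n j) x := by
      intro l hl
      have hI0 : 0 ≤ ∫ x : E (k + 1),
          (∑ n, ∑ j, ‖u l n j x‖ ^ 2) ^ (1 + 2 / ((k + 1 : ℕ) : ℝ)) :=
        integral_nonneg fun x => Real.rpow_nonneg
          (Finset.sum_nonneg fun n _ => Finset.sum_nonneg fun j _ => sq_nonneg _) _
      rcases Nat.eq_zero_or_pos l with h0 | h0
      · subst h0
        have h2 := shell_zero hk (h.shell 0 hl) (u 0) (h.system 0 hl)
        refine ⟨h2.1, le_trans ?_ h2.2⟩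
        exact mul_le_mul_of_nonneg_right (hpow.trans hCC) hI0
      · obtain ⟨m, rfl⟩ : ∃ m, l = m + 1 := ⟨l - 1, by omega⟩
        have h2 := shell_system (by omega) (hg _ hl).1 (h.shell _ hl) (u (m + 1))
          (h.system _ hl)
        have e : cen k (m + 1) =
            ((k : ℝ) / 2) ^ 2 - (k : ℝ) / 2 + ((m : ℝ) + 1) * ((m : ℝ) + k) := by
          unfold cen
          push_cast
          ring
        rw [← e] at h2
        refine ⟨h2.1, le_trans ?_ h2.2⟩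
        apply mul_le_mul_of_nonneg_right _ hI0
        refine hpow.trans (hCL (m + 1) (g (m + 1)) (by omega) (hΛ _ hl) (hg _ hl).1 ?_)
        refine (hg _ hl).2.trans ?_
        exact Nat.choose_le_choose _ (by omega)
    exact sum_bound (by omega) hK (ρ := fun l x => ∑ n, ∑ j, ‖u l n j x‖ ^ 2)
      (fun l x => Finset.sum_nonneg fun n _ => Finset.sum_nonneg fun j _ => sq_nonneg _)
      (fun l hl => (hex l hl).1) (fun l hl => (hex l hl).2)
  obtain ⟨k0, hk0⟩ := eventually_atTop.1 h1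
  refine eventually_atTop.2 ⟨k0 + 1, fun d hd => ?_⟩
  obtain ⟨k, rfl⟩ : ∃ k, d = k + 1 := ⟨d - 1, by omega⟩
  exact hk0 k (by omega)

end Pool.Agent.N537.CS
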