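import Pool.Agent.N537.CS.Win3

/-!
Closed shells with several angular momenta in dimension three.
-/

open Finset MeasureTheory

namespace Pool.Agent.N537.CS

open Pool.Agent.R117.RL

/-- the inequality of Young for one angular momentum -/
theorem leg {w t c : ℝ} (ht : 0 ≤ t) :
    w ^ 2 * t - 4 / (3 * √3 * Real.pi) * √(w ^ 2 - c) ^ 3 ≤ Real.pi ^ 2 / 4 * t ^ 3 + c * t := by
  have hπ := Real.pi_pos
  set y := √(w ^ 2 - c) with hy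
  have hy0 : 0 ≤ y := Real.sqrt_nonneg _
  have hy2 : w ^ 2 - c ≤ y ^ 2 := by
    rw [hy, Real.sq_sqrt']
    exact le_max_left _ _
  set s := √3 with hs
  have hs0 : 0 < s := Real.sqrt_pos.2 (by norm_num)
  have hs2 : s ^ 2 = 3 := Real.sq_sqrt (by norm_num)
  set a := 2 * y / (s * Real.pi) with ha
  have ha0 : 0 ≤ a := by positivity
  have hya : y = s * Real.pi * a / 2 := by
    rw [ha]
    field_simp
  have e1 : y ^ 2 = 3 * Real.pi ^ 2 * a ^ 2 / 4 := by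
    rw [hya, ← hs2]
    ring
  have e2 : 4 / (3 * s * Real.pi) * y ^ 3 = Real.pi ^ 2 * a ^ 3 / 2 := by
    rw [hya]
    have : 4 / (3 * s * Real.pi) * (s * Real.pi * a / 2) ^ 3 =
        s ^ 2 * Real.pi ^ 2 * a ^ 3 / 6 := by
      field_simp
      ring
    rw [this, hs2]
    ring
  rw [e2]
  have h1 : (w ^ 2 - c) * t ≤ y ^ 2 * t := mul_le_mul_of_nonneg_right hy2 ht
  rw [e1] at h1
  have h2 : 0 ≤ Real.pi ^ 2 / 4 * ((t - a) ^ 2 * (t + 2 * a)) := by positivity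
  have h3 : Real.pi ^ 2 / 4 * ((t - a) ^ 2 * (t + 2 * a)) =
      Real.pi ^ 2 / 4 * t ^ 3 - 3 * Real.pi ^ 2 * a ^ 2 / 4 * t + Real.pi ^ 2 * a ^ 3 / 2 := by
    ring
  linarith

/-- the constant `K_3^cl / σ^(2/3)` -/
noncomputable def K3 : ℝ := 3 / 5 * (3 * Real.pi / 2) ^ ((2 : ℝ) / 3)

theorem pt3 {Λ : Finset ℕ} (hW : ∀ w : ℝ, 0 ≤ w →
      ∑ l ∈ Λ, (2 * (l : ℝ) + 1) * √(w ^ 2 - l * ((l : ℝ) + 1)) ^ 3 ≤ √3 / 5 * w ^ 5)
    (t : ℕ → ℝ) (ht : ∀ l, 0 ≤ t l) :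
    K3 * (∑ l ∈ Λ, ((2 * l + 1 : ℕ) : ℝ) * t l) ^ (1 + 2 / ((2 + 1 : ℕ) : ℝ)) ≤
      ∑ l ∈ Λ, ((2 * l + 1 : ℕ) : ℝ) * (Real.pi ^ 2 / 4 * (t l) ^ 3 + cen 2 l * t l) := by
  have hπ := Real.pi_pos
  have hcen : ∀ l : ℕ, cen 2 l = l * ((l : ℝ) + 1) := by
    intro l
    unfold cen
    push_cast
    ring
  have hg : ∀ l : ℕ, ((2 * l + 1 : ℕ) : ℝ) = 2 * (l : ℝ) + 1 := by
    intro l
    push_cast
    ring
  simp only [hcen, hg]
  set S := ∑ l ∈ Λ, (2 * (l : ℝ) + 1) * t l with hS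
  have hS0 : 0 ≤ S := sum_nonneg fun l _ => mul_nonneg (by positivity) (ht l)
  set w : ℝ := (3 * Real.pi / 2 * S) ^ ((1 : ℝ) / 3) with hw
  have hw0 : 0 ≤ w := by positivity
  have hw3 : w ^ 3 = 3 * Real.pi / 2 * S := by
    rw [hw, ← Real.rpow_natCast, ← Real.rpow_mul (by positivity)]
    norm_num
  have hw2 : w ^ 2 = (3 * Real.pi / 2) ^ ((2 : ℝ) / 3) * S ^ ((2 : ℝ) / 3) := by
    rw [hw, ← Real.rpow_natCast, ← Real.rpow_mul (by positivity),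
      Real.mul_rpow (by positivity) hS0]
    norm_num
  have h1 : ∑ l ∈ Λ, (2 * (l : ℝ) + 1) *
      (w ^ 2 * t l - 4 / (3 * √3 * Real.pi) * √(w ^ 2 - l * ((l : ℝ) + 1)) ^ 3) ≤
      ∑ l ∈ Λ, (2 * (l : ℝ) + 1) * (Real.pi ^ 2 / 4 * (t l) ^ 3 + l * ((l : ℝ) + 1) * t l) :=
    sum_le_sum fun l _ => mul_le_mul_of_nonneg_left (leg (ht l)) (by positivity)
  have h2 : ∑ l ∈ Λ, (2 * (l : ℝ) + 1) *
      (w ^ 2 * t l - 4 / (3 * √3 * Real.pi) * √(w ^ 2 - l * ((l : ℝ) + 1)) ^ 3) =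
      w ^ 2 * S - 4 / (3 * √3 * Real.pi) *
        ∑ l ∈ Λ, (2 * (l : ℝ) + 1) * √(w ^ 2 - l * ((l : ℝ) + 1)) ^ 3 := by
    rw [hS, mul_sum, mul_sum, ← sum_sub_distrib]
    exact sum_congr rfl fun l _ => by ring
  have h3 := mul_le_mul_of_nonneg_left (hW w hw0)
    (by positivity : 0 ≤ 4 / (3 * √3 * Real.pi))
  have h4 : 4 / (3 * √3 * Real.pi) * (√3 / 5 * w ^ 5) = 2 / 5 * (w ^ 2 * S) := by
    have : w ^ 5 = w ^ 2 * (3 * Real.pi / 2 * S) := by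
      rw [← hw3]
      ring
    rw [this]
    have hs0 : 0 < √(3 : ℝ) := Real.sqrt_pos.2 (by norm_num)
    field_simp
    ring
  have h5 : K3 * S ^ (1 + 2 / ((2 + 1 : ℕ) : ℝ)) = 3 / 5 * (w ^ 2 * S) := by
    have h6 : S ^ (1 + 2 / ((2 + 1 : ℕ) : ℝ)) = S * S ^ ((2 : ℝ) / 3) := by
      rcases hS0.eq_or_lt with h0 | h0
      · rw [← h0, Real.zero_rpow (by positivity)]
        simp
      · rw [Real.rpow_add h0, Real.rpow_one]
        norm_num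
    rw [h6, hw2]
    unfold K3
    ring
  rw [h5]
  linarith

theorem Kcl_three : Kcl 3 = K3 * sg (2 + 1) ^ (2 / ((2 + 1 : ℕ) : ℝ)) := by
  have hπ := Real.pi_pos
  have hsg : sg 3 = 4 * Real.pi := by
    have h1 := sg_sq (d := 3) (by norm_num)
    have h2 := sg_pos (d := 3) (by norm_num)
    rw [Ga_three, mul_pow, Real.sq_sqrt hπ.le] at h1
    have h3 : sg 3 ^ 2 = (4 * Real.pi) ^ 2 := by
      rw [h1]
      push_cast
      field_simp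
    exact (pow_left_inj₀ h2.le (by positivity) two_ne_zero).1 h3
  have hK0 : 0 ≤ Kcl 3 := by
    unfold Kcl
    have := om_pos 3
    positivity
  have hR0 : 0 ≤ K3 * sg (2 + 1) ^ (2 / ((2 + 1 : ℕ) : ℝ)) := by
    unfold K3
    have := sg_pos (d := 2 + 1) (by norm_num)
    positivity
  rw [← pow_left_inj₀ hK0 hR0 (n := 3) (by norm_num), Kcl_pow (by norm_num), Ga_three]
  unfold K3
  rw [show 2 + 1 = 3 from rfl, hsg]
  have e1 : ((3 * Real.pi / 2) ^ ((2 : ℝ) / 3)) ^ 3 = (3 * Real.pi / 2) ^ 2 := by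
    rw [← Real.rpow_natCast, ← Real.rpow_mul (by positivity), ← Real.rpow_natCast]
    norm_num
  have e2 : ((4 * Real.pi) ^ (2 / ((3 : ℕ) : ℝ))) ^ 3 = (4 * Real.pi) ^ 2 := by
    rw [← Real.rpow_natCast, ← Real.rpow_mul (by positivity), ← Real.rpow_natCast]
    norm_num
  rw [mul_pow _ ((4 * Real.pi) ^ (2 / ((3 : ℕ) : ℝ))) 3, mul_pow (3 / 5) _ 3, e1, e2, mul_pow,
    Real.sq_sqrt hπ.le]
  push_cast
  ring

/-- closed shells with angular momenta in a window, dimension three -/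
theorem three {L : ℕ} (hL : 1 ≤ L) {N : ℕ → ℕ}
    {P : ∀ l, Fin (2 * l + 1) → E 3 → ℝ} {u : ∀ l, Fin (N l) → Fin (2 * l + 1) → E 3 → ℂ}
    (h : Mixed (Ico L (4 * L - 1)) (fun l => 2 * l + 1) N P u) :
    Integrable (fun x : E 3 =>
      (∑ l ∈ Ico L (4 * L - 1), ∑ n, ∑ j, ‖u l n j x‖ ^ 2) ^ (1 + 2 / ((3 : ℕ) : ℝ))) ∧
    Kcl 3 * (∫ x : E 3,
      (∑ l ∈ Ico L (4 * L - 1), ∑ n, ∑ j, ‖u l n j x‖ ^ 2) ^ (1 + 2 / ((3 : ℕ) : ℝ))) ≤
      ∑ l ∈ Ico L (4 * L - 1), ∑ n, ∑ j, ∫ x, grad2 (u l n j) x := by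
  have hW : ∀ w : ℝ, 0 ≤ w → ∑ l ∈ Ico L (4 * L - 1),
      (2 * (l : ℝ) + 1) * √(w ^ 2 - l * ((l : ℝ) + 1)) ^ 3 ≤ √3 / 5 * w ^ 5 := by
    intro w hw
    rcases Nat.lt_or_ge L 2 with h2 | h2
    · obtain rfl : L = 1 := by omega
      exact win1 hw
    · exact win h2 hw
  have hK : 0 < K3 := by
    have := Real.pi_pos
    unfold K3
    positivity
  have hmain := mix (k := 2) (by norm_num) (Λ := Ico L (4 * L - 1)) (g := fun l => 2 * l + 1)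
    (N := N) (fun l hl => by have := (mem_Ico.1 hl).1; omega) (fun l _ => by omega) hK
    (pt3 hW) h
  rw [← Kcl_three] at hmain
  exact hmain

end Pool.Agent.N537.CS
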