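import Pool.Agent.N537.CS.Win2
import Pool.Agent.N537.CS.Three

/-!
Closed shells with several angular momenta in dimension two.
-/

open Finset MeasureTheory

namespace Pool.Agent.N537.CS

open Pool.Agent.R117.RL

theorem pt2 {Λ : Finset ℕ} (hW : ∀ m : ℝ, 1 / 4 ≤ m →
      ∑ l ∈ Λ, 2 * √(m - (l : ℝ) ^ 2) ^ 3 ≤ 3 * √3 * Real.pi / 16 * (m - 1 / 4) ^ 2)
    (t : ℕ → ℝ) (ht : ∀ l, 0 ≤ t l) :
    1 * (∑ l ∈ Λ, ((2 : ℕ) : ℝ) * t l) ^ (1 + 2 / ((1 + 1 : ℕ) : ℝ)) ≤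
      ∑ l ∈ Λ, ((2 : ℕ) : ℝ) * (Real.pi ^ 2 / 4 * (t l) ^ 3 + cen 1 l * t l) := by
  have hπ := Real.pi_pos
  have hcen : ∀ l : ℕ, cen 1 l = (l : ℝ) ^ 2 - 1 / 4 := by
    intro l
    unfold cen
    push_cast
    ring
  simp only [hcen, Nat.cast_ofNat]
  set S := ∑ l ∈ Λ, (2 : ℝ) * t l with hS
  have hS0 : 0 ≤ S := sum_nonneg fun l _ => mul_nonneg (by norm_num) (ht l)
  set w : ℝ := √(2 * S) with hw
  have hw2 : w ^ 2 = 2 * S := Real.sq_sqrt (by positivity)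
  have h1 : ∑ l ∈ Λ, (2 : ℝ) *
      (w ^ 2 * t l - 4 / (3 * √3 * Real.pi) * √(w ^ 2 - ((l : ℝ) ^ 2 - 1 / 4)) ^ 3) ≤
      ∑ l ∈ Λ, (2 : ℝ) * (Real.pi ^ 2 / 4 * (t l) ^ 3 + ((l : ℝ) ^ 2 - 1 / 4) * t l) :=
    sum_le_sum fun l _ => mul_le_mul_of_nonneg_left (leg (ht l)) (by norm_num)
  have h2 : ∑ l ∈ Λ, (2 : ℝ) *
      (w ^ 2 * t l - 4 / (3 * √3 * Real.pi) * √(w ^ 2 - ((l : ℝ) ^ 2 - 1 / 4)) ^ 3) =
      w ^ 2 * S - 4 / (3 * √3 * Real.pi) *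
        ∑ l ∈ Λ, 2 * √((w ^ 2 + 1 / 4) - (l : ℝ) ^ 2) ^ 3 := by
    rw [hS, mul_sum, mul_sum, ← sum_sub_distrib]
    refine sum_congr rfl fun l _ => ?_
    have e : w ^ 2 - ((l : ℝ) ^ 2 - 1 / 4) = (w ^ 2 + 1 / 4) - (l : ℝ) ^ 2 := by ring
    rw [e]
    ring
  have h3 := mul_le_mul_of_nonneg_left (hW (w ^ 2 + 1 / 4) (by linarith [sq_nonneg w]))
    (by positivity : 0 ≤ 4 / (3 * √3 * Real.pi))
  have h4 : 4 / (3 * √3 * Real.pi) * (3 * √3 * Real.pi / 16 * (w ^ 2 + 1 / 4 - 1 / 4) ^ 2) =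
      S ^ 2 := by
    have e : w ^ 2 + 1 / 4 - 1 / 4 = 2 * S := by rw [hw2]; ring
    rw [e]
    have hs0 : 0 < √(3 : ℝ) := Real.sqrt_pos.2 (by norm_num)
    field_simp
    ring
  have h5 : S ^ (1 + 2 / ((1 + 1 : ℕ) : ℝ)) = S ^ 2 := by
    rw [← Real.rpow_two]
    norm_num
  rw [h5, one_mul]
  rw [h4] at h3
  have h6 : w ^ 2 * S = 2 * S ^ 2 := by rw [hw2]; ring
  linarith

theorem Kcl_two : Kcl 2 = 1 * sg (1 + 1) ^ (2 / ((1 + 1 : ℕ) : ℝ)) := by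
  have hπ := Real.pi_pos
  have hsg : sg 2 = 2 * Real.pi := by
    have h1 := sg_sq (d := 2) (by norm_num)
    have h2 := sg_pos (d := 2) (by norm_num)
    rw [Ga_two] at h1
    have h3 : sg 2 ^ 2 = (2 * Real.pi) ^ 2 := by
      rw [h1]
      push_cast
      ring
    exact (pow_left_inj₀ h2.le (by positivity) two_ne_zero).1 h3
  have hK0 : 0 ≤ Kcl 2 := by
    unfold Kcl
    have := om_pos 2
    positivity
  have hK : Kcl 2 = 2 * Real.pi := by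
    rw [← pow_left_inj₀ hK0 (by positivity) (n := 2) (by norm_num), Kcl_pow (by norm_num), Ga_two]
    push_cast
    ring
  rw [hK, show 1 + 1 = 2 from rfl, hsg, one_mul]
  norm_num

/-- closed shells with angular momenta in a window, dimension two -/
theorem two {L : ℕ} (hL : 1 ≤ L) {Λ : Finset ℕ} (hΛ : Λ ⊆ Ico L (8 * L - 3)) {N : ℕ → ℕ}
    {P : ∀ _ : ℕ, Fin 2 → E 2 → ℝ} {u : ∀ l, Fin (N l) → Fin 2 → E 2 → ℂ}
    (h : Mixed Λ (fun _ => 2) N P u) :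
    Integrable (fun x : E 2 =>
      (∑ l ∈ Λ, ∑ n, ∑ j, ‖u l n j x‖ ^ 2) ^ (1 + 2 / ((2 : ℕ) : ℝ))) ∧
    Kcl 2 * (∫ x : E 2,
      (∑ l ∈ Λ, ∑ n, ∑ j, ‖u l n j x‖ ^ 2) ^ (1 + 2 / ((2 : ℕ) : ℝ))) ≤
      ∑ l ∈ Λ, ∑ n, ∑ j, ∫ x, grad2 (u l n j) x := by
  have hW : ∀ m : ℝ, 1 / 4 ≤ m →
      ∑ l ∈ Λ, 2 * √(m - (l : ℝ) ^ 2) ^ 3 ≤ 3 * √3 * Real.pi / 16 * (m - 1 / 4) ^ 2 := by
    intro m hm
    refine le_trans (sum_le_sum_of_subset_of_nonneg hΛ fun l _ _ => by positivity) ?_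
    rcases Nat.lt_or_ge L 2 with h2 | h2
    · obtain rfl : L = 1 := by omega
      exact win21 hm
    · exact win2 h2 hm
  have hmain := mix (k := 1) (by norm_num) (Λ := Λ) (g := fun _ => 2)
    (N := N) (fun l hl => by have := (mem_Ico.1 (hΛ hl)).1; omega) (fun l _ => by norm_num)
    one_pos (pt2 hW) h
  rw [← Kcl_two] at hmain
  exact hmain

/-- closed shells with angular momenta in a window, dimension three, subsets -/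
theorem three' {L : ℕ} (hL : 1 ≤ L) {Λ : Finset ℕ} (hΛ : Λ ⊆ Ico L (4 * L - 1)) {N : ℕ → ℕ}
    {P : ∀ l, Fin (2 * l + 1) → E 3 → ℝ} {u : ∀ l, Fin (N l) → Fin (2 * l + 1) → E 3 → ℂ}
    (h : Mixed Λ (fun l => 2 * l + 1) N P u) :
    Integrable (fun x : E 3 =>
      (∑ l ∈ Λ, ∑ n, ∑ j, ‖u l n j x‖ ^ 2) ^ (1 + 2 / ((3 : ℕ) : ℝ))) ∧
    Kcl 3 * (∫ x : E 3,
      (∑ l ∈ Λ, ∑ n, ∑ j, ‖u l n j x‖ ^ 2) ^ (1 + 2 / ((3 : ℕ) : ℝ))) ≤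
      ∑ l ∈ Λ, ∑ n, ∑ j, ∫ x, grad2 (u l n j) x := by
  have hW : ∀ w : ℝ, 0 ≤ w → ∑ l ∈ Λ,
      (2 * (l : ℝ) + 1) * √(w ^ 2 - l * ((l : ℝ) + 1)) ^ 3 ≤ √3 / 5 * w ^ 5 := by
    intro w hw
    refine le_trans (sum_le_sum_of_subset_of_nonneg hΛ fun l _ _ => by positivity) ?_
    rcases Nat.lt_or_ge L 2 with h2 | h2
    · obtain rfl : L = 1 := by omega
      exact win1 hw
    · exact win h2 hw
  have hK : 0 < K3 := by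
    have := Real.pi_pos
    unfold K3
    positivity
  have hmain := mix (k := 2) (by norm_num) (Λ := Λ) (g := fun l => 2 * l + 1)
    (N := N) (fun l hl => by have := (mem_Ico.1 (hΛ hl)).1; omega) (fun l _ => by omega) hK
    (pt3 hW) h
  rw [← Kcl_three] at hmain
  exact hmain

end Pool.Agent.N537.CS
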