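import Mathlib

/-!
The inequality for windows of angular momenta in dimension two.
-/

open Finset

namespace Pool.Agent.N537.CS

/-- the polynomial inequality -/
theorem poly2 {L v : ℝ} (hL : 2 ≤ L) (hv : v = 0 ∨ v = 1 ∨ v = 2 ∨ v = 3 ∨ v = 4 ∨ v = 5 ∨ v = 6 ∨
      v = 7 ∨ v = 8 ∨ v = 9 ∨ (10 ≤ v ∧ v + 4 ≤ 7 * L)) :
    8 * (L + v) ^ 2 * (v + 1) ^ 3 ≤ 3 * ((L + v) ^ 2 - 1) *
      ((L + v) * (L + v + 1) * (2 * (L + v) + 1) - (L - 1) * L * (2 * L - 1)) := by
  rcases hv with h | h | h | h | h | h | h | h | h | h | ⟨h, h'⟩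
  iterate 10
    · obtain ⟨s, hs, rfl⟩ : ∃ s, 0 ≤ s ∧ L = 2 + s := ⟨L - 2, by linarith, by ring⟩
      subst h
      rw [← sub_nonneg]
      ring_nf
      positivity
  · obtain ⟨t, ht, rfl⟩ : ∃ t, 0 ≤ t ∧ v = 10 + t := ⟨v - 10, by linarith, by ring⟩
    obtain ⟨s, hs, rfl⟩ : ∃ s, 0 ≤ s ∧ L = (10 + t + 4) / 7 + s :=
      ⟨L - (10 + t + 4) / 7, by linarith, by ring⟩
    rw [← sub_nonneg]
    ring_nf
    positivity

/-- the sum of the squares -/
theorem sum_sq (L N : ℕ) : ∑ l ∈ Ico L (L + N), (l : ℝ) ^ 2 =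
    (((L : ℝ) + N - 1) * (L + N) * (2 * (L + N) - 1) - (L - 1) * L * (2 * L - 1)) / 6 := by
  induction N with
  | zero => simp
  | succ N ih =>
    rw [← add_assoc, sum_Ico_succ_top (by omega), ih]
    push_cast
    ring

/-- the cubic inequality -/
theorem cubic {κ N B x : ℝ} (hκ : 0 < κ) (hx : 0 ≤ x) (hN : 0 ≤ N)
    (h : 16 / 27 * N ^ 3 ≤ κ ^ 2 * B) : 2 * (N * x ^ 2 - B) ≤ κ * x ^ 3 := by
  have h1 : 0 ≤ κ * ((x - 4 * N / (3 * κ)) ^ 2 * (x + 2 * N / (3 * κ))) := by positivity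
  have h2 : κ * ((x - 4 * N / (3 * κ)) ^ 2 * (x + 2 * N / (3 * κ))) =
      κ * x ^ 3 - 2 * N * x ^ 2 + 32 / 27 * N ^ 3 / κ ^ 2 := by
    field_simp
    ring
  have h3 : 32 / 27 * N ^ 3 / κ ^ 2 ≤ 2 * B := by
    rw [div_le_iff₀ (by positivity)]
    linarith
  linarith

/-- the bound for the first Riesz means -/
theorem riesz {L : ℕ} (hL : 2 ≤ L) {a m : ℝ} (ha0 : 0 ≤ a) (ham : a ≤ m) (hm : 1 / 4 ≤ m) :
    ∑ l ∈ Ico L (8 * L - 3), 2 * max (a - (l : ℝ) ^ 2) 0 ≤
      2 / √3 * (1 - 1 / (4 * m)) ^ 2 * √a ^ 3 := by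
  have hm0 : 0 < m := by linarith
  have h3 : 0 < √(3 : ℝ) := Real.sqrt_pos.2 (by norm_num)
  have h32 : √(3 : ℝ) ^ 2 = 3 := Real.sq_sqrt (by norm_num)
  have hL' : (2 : ℝ) ≤ L := by exact_mod_cast hL
  set x := √a with hx
  have hx0 : 0 ≤ x := Real.sqrt_nonneg _
  have hx2 : x ^ 2 = a := Real.sq_sqrt ha0
  rcases le_or_gt a ((L : ℝ) ^ 2) with haL | haL
  · have h1 : ∑ l ∈ Ico L (8 * L - 3), 2 * max (a - (l : ℝ) ^ 2) 0 = 0 := by
      apply sum_eq_zero
      intro l hl
      have h2 : (L : ℝ) ≤ l := by exact_mod_cast (mem_Ico.1 hl).1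
      have h4 : (L : ℝ) ^ 2 ≤ (l : ℝ) ^ 2 := pow_le_pow_left₀ (by positivity) h2 2
      rw [max_eq_right (by linarith), mul_zero]
    rw [h1]
    positivity
  · -- the last nonzero term
    set j : ℕ := min (8 * L - 4) ⌊x⌋₊ with hj
    have hLx : (L : ℝ) < x := by
      by_contra hcon
      rw [not_lt] at hcon
      have := pow_le_pow_left₀ hx0 hcon 2
      linarith
    have hLj : L ≤ j := by
      rw [hj, le_min_iff]
      exact ⟨by omega, Nat.le_floor hLx.le⟩
    have hjx : (j : ℝ) ≤ x := by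
      have h1 : j ≤ ⌊x⌋₊ := min_le_right _ _
      exact le_trans (by exact_mod_cast h1) (Nat.floor_le hx0)
    have hj8 : j ≤ 8 * L - 4 := min_le_left _ _
    obtain ⟨N, hN⟩ : ∃ N, j + 1 = L + N := ⟨j + 1 - L, by omega⟩
    have hN1 : 1 ≤ N := by omega
    have hsub : Ico L (L + N) ⊆ Ico L (8 * L - 3) := by
      intro l hl
      rw [mem_Ico] at hl ⊢
      omega
    have h1 : ∑ l ∈ Ico L (8 * L - 3), 2 * max (a - (l : ℝ) ^ 2) 0 =
        ∑ l ∈ Ico L (L + N), 2 * (a - (l : ℝ) ^ 2) := by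
      rw [← sum_subset hsub]
      · apply sum_congr rfl
        intro l hl
        rw [mem_Ico] at hl
        have h2 : (l : ℝ) ≤ j := by
          have : l ≤ j := by omega
          exact_mod_cast this
        have h4 : (l : ℝ) ^ 2 ≤ x ^ 2 := pow_le_pow_left₀ (by positivity) (h2.trans hjx) 2
        rw [hx2] at h4
        rw [max_eq_left (by linarith)]
      · intro l hl hl2
        rw [mem_Ico] at hl hl2
        have h2 : ⌊x⌋₊ < l := by
          have h4 : j < l := by omega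
          rcases min_lt_iff.1 (hj ▸ h4 : min (8 * L - 4) ⌊x⌋₊ < l) with h5 | h5
          · omega
          · exact h5
        have h4 : x < l := (Nat.floor_lt hx0).1 h2
        have h5 : x ^ 2 ≤ (l : ℝ) ^ 2 := pow_le_pow_left₀ hx0 h4.le 2
        rw [hx2] at h5
        rw [max_eq_right (by linarith), mul_zero]
    have hsum : ∑ l ∈ Ico L (L + N), 2 * (a - (l : ℝ) ^ 2) =
        2 * (N * x ^ 2 - ∑ l ∈ Ico L (L + N), (l : ℝ) ^ 2) := by
      rw [← mul_sum, sum_sub_distrib, sum_const, Nat.card_Ico, nsmul_eq_mul, hx2]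
      congr 3
      congr 1
      omega
    rw [h1, hsum]
    have hNj : (N : ℝ) = j + 1 - L := by
      have : ((j + 1 : ℕ) : ℝ) = ((L + N : ℕ) : ℝ) := by rw [hN]
      push_cast at this
      linarith
    have hj2 : (2 : ℝ) ≤ j := hL'.trans (by exact_mod_cast hLj)
    -- the polynomial inequality
    have hpoly := poly2 (L := (L : ℝ)) (v := (j : ℝ) - L) hL' (by
      obtain ⟨v, hv⟩ : ∃ v, j = L + v := ⟨j - L, by omega⟩
      have hv' : (j : ℝ) - L = v := by
        rw [hv]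
        push_cast
        ring
      rw [hv']
      rcases Nat.lt_or_ge v 10 with h10 | h10
      · interval_cases v <;> norm_num
      · right; right; right; right; right; right; right; right; right; right
        constructor
        · exact_mod_cast h10
        · have : v + 4 ≤ 7 * L := by omega
          exact_mod_cast this)
    have hB := sum_sq L N
    have hm4 : 0 < 1 - 1 / (4 * m) := by
      have h5 : (4 : ℝ) ≤ j ^ 2 := by nlinarith
      have h6 : (j : ℝ) ^ 2 ≤ m := by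
        have := pow_le_pow_left₀ (by positivity) hjx 2
        linarith
      rw [sub_pos, div_lt_one (by positivity)]
      linarith
    apply cubic (by positivity) hx0 (by positivity)
    rw [mul_pow, div_pow, h32, hB]
    have hj2m : (j : ℝ) ^ 2 ≤ m := by
      have := pow_le_pow_left₀ (by positivity) hjx 2
      linarith
    have hj0 : (0 : ℝ) < j ^ 2 := by positivity
    -- the correction
    have hcorr : 1 - 1 / (j : ℝ) ^ 2 ≤ ((1 - 1 / (4 * m)) ^ 2) ^ 2 := by
      have h5 : 1 / (4 * m) ≤ 1 / (4 * (j : ℝ) ^ 2) := by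
        apply one_div_le_one_div_of_le (by positivity)
        linarith
      have h6 : 1 / (4 * (j : ℝ) ^ 2) = 1 / (j : ℝ) ^ 2 / 4 := by
        field_simp
      have h7 := one_add_mul_le_pow (a := -(1 / (4 * m))) (by linarith) 4
      have h8 : ((1 - 1 / (4 * m)) ^ 2) ^ 2 = (1 + -(1 / (4 * m))) ^ 4 := by ring
      rw [h8]
      refine le_trans ?_ h7
      push_cast
      linarith
    set Bv := (((L : ℝ) + N - 1) * (L + N) * (2 * (L + N) - 1) - (L - 1) * L * (2 * L - 1)) / 6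
      with hBv
    have hB0 : 0 ≤ Bv := by
      rw [← hB]
      exact sum_nonneg fun l _ => sq_nonneg _
    have h9 : 16 / 27 * (N : ℝ) ^ 3 ≤ 2 ^ 2 / 3 * (1 - 1 / (j : ℝ) ^ 2) * Bv := by
      have e1 : (L : ℝ) + ((j : ℝ) - L) = j := by ring
      have e2 : (j : ℝ) - L + 1 = N := by rw [hNj]; ring
      rw [e1, e2] at hpoly
      have e3 : Bv = ((j : ℝ) * (j + 1) * (2 * j + 1) - (L - 1) * L * (2 * L - 1)) / 6 := by
        rw [hBv, hNj]
        ring
      rw [e3]
      have e4 : 1 - 1 / (j : ℝ) ^ 2 = ((j : ℝ) ^ 2 - 1) / j ^ 2 := by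
        field_simp
      have e5 : (2 : ℝ) ^ 2 / 3 * (((j : ℝ) ^ 2 - 1) / j ^ 2) *
          (((j : ℝ) * (j + 1) * (2 * j + 1) - (L - 1) * L * (2 * L - 1)) / 6) =
          (2 / 9 * (((j : ℝ) ^ 2 - 1) *
          ((j : ℝ) * (j + 1) * (2 * j + 1) - (L - 1) * L * (2 * L - 1)))) / j ^ 2 := by
        field_simp
        ring
      rw [e4, e5, le_div_iff₀ hj0]
      linarith
    refine h9.trans ?_
    have h10 : (2 : ℝ) ^ 2 / 3 * (1 - 1 / (j : ℝ) ^ 2) * Bv ≤
        2 ^ 2 / 3 * ((1 - 1 / (4 * m)) ^ 2) ^ 2 * Bv := by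
      apply mul_le_mul_of_nonneg_right _ hB0
      exact mul_le_mul_of_nonneg_left hcorr (by norm_num)
    exact h10

open MeasureTheory Set in
/-- the integral representation of the power `3/2` -/
theorem int1 {b m : ℝ} (hm : 0 < m) (hb : b ≤ m) :
    ∫ s in (-√m)..√m, max (b - s ^ 2) 0 = 4 / 3 * √b ^ 3 := by
  rcases le_or_gt b 0 with hb0 | hb0
  · have h1 : √b = 0 := Real.sqrt_eq_zero_of_nonpos hb0
    have h2 : ∀ s : ℝ, max (b - s ^ 2) 0 = 0 := fun s => max_eq_right (by nlinarith [sq_nonneg s])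
    simp only [h2, intervalIntegral.integral_zero, h1]
    norm_num
  · set r := √b with hr
    have hr0 : 0 ≤ r := Real.sqrt_nonneg _
    have hr2 : r ^ 2 = b := Real.sq_sqrt hb0.le
    have hrm : r ≤ √m := Real.sqrt_le_sqrt hb
    have hc : Continuous fun s : ℝ => max (b - s ^ 2) 0 := by fun_prop
    have hi : ∀ u v : ℝ, IntervalIntegrable (fun s : ℝ => max (b - s ^ 2) 0) volume u v :=
      fun u v => hc.intervalIntegrable u v
    have e1 : ∫ s in (-√m)..(-r), max (b - s ^ 2) 0 = 0 := by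
      apply intervalIntegral.integral_zero_ae
      refine Filter.Eventually.of_forall fun s hs => ?_
      rw [uIoc_of_le (by linarith)] at hs
      have h3 : r ≤ -s := by linarith [hs.2]
      have h4 := pow_le_pow_left₀ hr0 h3 2
      exact max_eq_right (by rw [hr2] at h4; linarith [neg_sq s])
    have e2 : ∫ s in r..√m, max (b - s ^ 2) 0 = 0 := by
      apply intervalIntegral.integral_zero_ae
      refine Filter.Eventually.of_forall fun s hs => ?_
      rw [uIoc_of_le hrm] at hs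
      have h4 := pow_le_pow_left₀ hr0 hs.1.le 2
      exact max_eq_right (by rw [hr2] at h4; linarith)
    have e3 : ∫ s in (-r)..r, max (b - s ^ 2) 0 = ∫ s in (-r)..r, (b - s ^ 2) := by
      apply intervalIntegral.integral_congr
      intro s hs
      rw [Set.uIcc_of_le (by linarith)] at hs
      have h4 : s ^ 2 ≤ r ^ 2 := sq_le_sq' hs.1 hs.2
      exact max_eq_left (by rw [hr2] at h4; linarith)
    rw [← intervalIntegral.integral_add_adjacent_intervals (hi (-√m) (-r)) (hi (-r) √m),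
      ← intervalIntegral.integral_add_adjacent_intervals (hi (-r) r) (hi r √m), e1, e2, e3,
      intervalIntegral.integral_sub (continuous_const.intervalIntegrable _ _)
        ((continuous_pow 2).intervalIntegrable _ _)]
    simp only [intervalIntegral.integral_const, integral_pow, smul_eq_mul]
    rw [← hr2]
    push_cast
    ring

open MeasureTheory Set in
theorem int2 {m : ℝ} (hm : 0 < m) :
    ∫ s in (-√m)..√m, √(m - s ^ 2) ^ 3 = 3 * Real.pi / 8 * m ^ 2 := by
  set R := √m with hR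
  have hR0 : 0 < R := Real.sqrt_pos.2 hm
  have hR2 : R ^ 2 = m := Real.sq_sqrt hm.le
  set F : ℝ → ℝ := fun s => s / 8 * (5 * m - 2 * s ^ 2) * √(m - s ^ 2) +
    3 * m ^ 2 / 8 * Real.arcsin (s / R) with hF
  have hcF : Continuous F := by
    simp only [hF]
    have := Real.continuous_arcsin
    fun_prop
  have hd : ∀ s ∈ Ioo (-R) R, HasDerivAt F (√(m - s ^ 2) ^ 3) s := by
    intro s hs
    have h1 : s ^ 2 < m := by
      rw [← hR2]
      exact sq_lt_sq' hs.1 hs.2
    have h2 : 0 < m - s ^ 2 := by linarith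
    set q := √(m - s ^ 2) with hq
    have hq0 : 0 < q := Real.sqrt_pos.2 h2
    have hq2 : q ^ 2 = m - s ^ 2 := Real.sq_sqrt h2.le
    have h3 : HasDerivAt (fun s : ℝ => m - s ^ 2) (-(2 * s)) s := by
      have := (hasDerivAt_pow 2 s).const_sub m
      simpa using this
    have h4 : HasDerivAt (fun s : ℝ => √(m - s ^ 2)) (-(2 * s) / (2 * q)) s := h3.sqrt h2.ne'
    have h5 : HasDerivAt (fun s : ℝ => s / 8 * (5 * m - 2 * s ^ 2))
        (1 / 8 * (5 * m - 2 * s ^ 2) + s / 8 * (-(2 * (2 * s)))) s := by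
      have h6 : HasDerivAt (fun s : ℝ => 5 * m - 2 * s ^ 2) (-(2 * (2 * s))) s := by
        have := ((hasDerivAt_pow 2 s).const_mul 2).const_sub (5 * m)
        simpa using this
      exact ((hasDerivAt_id s).div_const 8).mul h6
    have h7 : HasDerivAt (fun s : ℝ => Real.arcsin (s / R)) (1 / √(1 - (s / R) ^ 2) * (1 / R)) s := by
      have h8 : s / R ≠ -1 := by
        intro h
        rw [div_eq_iff hR0.ne'] at h
        linarith [hs.1]
      have h9 : s / R ≠ 1 := by
        intro h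
        rw [div_eq_iff hR0.ne'] at h
        linarith [hs.2]
      exact (Real.hasDerivAt_arcsin h8 h9).comp s ((hasDerivAt_id s).div_const R)
    have h10 : √(1 - (s / R) ^ 2) = q / R := by
      have : 1 - (s / R) ^ 2 = (m - s ^ 2) / R ^ 2 := by
        rw [hR2, div_pow, hR2]
        field_simp
      rw [this, Real.sqrt_div h2.le, Real.sqrt_sq hR0.le]
    rw [h10] at h7
    have h11 := (h5.mul h4).add (h7.const_mul (3 * m ^ 2 / 8))
    refine h11.congr_deriv ?_
    rw [← hq]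
    have hm2 : m = q ^ 2 + s ^ 2 := by rw [hq2]; ring
    field_simp
    rw [hm2]
    ring
  rw [intervalIntegral.integral_eq_sub_of_hasDerivAt_of_le (by linarith) hcF.continuousOn hd
    (by
      have hc : Continuous fun s : ℝ => √(m - s ^ 2) ^ 3 := by fun_prop
      exact hc.intervalIntegrable _ _)]
  simp only [hF]
  have e1 : -R / R = -1 := by rw [neg_div, div_self hR0.ne']
  rw [neg_sq, hR2, sub_self, Real.sqrt_zero, e1, div_self hR0.ne', Real.arcsin_neg,
    Real.arcsin_one]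
  ring

open MeasureTheory in
/-- the window inequality, `L ≥ 2` -/
theorem win2 {L : ℕ} (hL : 2 ≤ L) {m : ℝ} (hm : 1 / 4 ≤ m) :
    ∑ l ∈ Ico L (8 * L - 3), 2 * √(m - (l : ℝ) ^ 2) ^ 3 ≤
      3 * √3 * Real.pi / 16 * (m - 1 / 4) ^ 2 := by
  have hm0 : 0 < m := by linarith
  have h3 : 0 < √(3 : ℝ) := Real.sqrt_pos.2 (by norm_num)
  have h32 : √(3 : ℝ) ^ 2 = 3 := Real.sq_sqrt (by norm_num)
  set R := √m with hR
  have hR0 : 0 < R := Real.sqrt_pos.2 hm0
  have hR2 : R ^ 2 = m := Real.sq_sqrt hm0.le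
  have e1 : ∀ l ∈ Ico L (8 * L - 3), 2 * √(m - (l : ℝ) ^ 2) ^ 3 =
      3 / 4 * ∫ s in (-R)..R, 2 * max ((m - s ^ 2) - (l : ℝ) ^ 2) 0 := by
    intro l _
    have h4 := int1 hm0 (b := m - (l : ℝ) ^ 2) (by linarith [sq_nonneg (l : ℝ)])
    have h5 : ∀ s : ℝ, max ((m - s ^ 2) - (l : ℝ) ^ 2) 0 = max (m - (l : ℝ) ^ 2 - s ^ 2) 0 := by
      intro s
      congr 1
      ring
    simp only [h5]
    rw [intervalIntegral.integral_const_mul, h4]
    ring
  rw [sum_congr rfl e1, ← mul_sum, ← intervalIntegral.integral_finsetSum]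
  · have h6 : ∫ s in (-R)..R, ∑ l ∈ Ico L (8 * L - 3), 2 * max ((m - s ^ 2) - (l : ℝ) ^ 2) 0 ≤
        ∫ s in (-R)..R, 2 / √3 * (1 - 1 / (4 * m)) ^ 2 * √(m - s ^ 2) ^ 3 := by
      apply intervalIntegral.integral_mono_on (by linarith)
      · apply Continuous.intervalIntegrable
        fun_prop
      · apply Continuous.intervalIntegrable
        fun_prop
      · intro s hs
        have h7 : s ^ 2 ≤ R ^ 2 := sq_le_sq' hs.1 hs.2
        exact riesz hL (by linarith) (by linarith [sq_nonneg s]) hm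
    rw [intervalIntegral.integral_const_mul, int2 hm0] at h6
    refine le_trans (mul_le_mul_of_nonneg_left h6 (by norm_num)) (le_of_eq ?_)
    have h8 : 3 * √3 * Real.pi / 16 * (m - 1 / 4) ^ 2 =
        9 * Real.pi / (16 * √3) * (m - 1 / 4) ^ 2 := by
      field_simp
      rw [h32]
      ring
    rw [h8]
    field_simp
    ring
  · intro l _
    apply Continuous.intervalIntegrable
    fun_prop

/-- the window inequality, `L = 1` -/
theorem win21 {m : ℝ} (hm : 1 / 4 ≤ m) :
    ∑ l ∈ Ico (1 : ℕ) (8 * 1 - 3), 2 * √(m - (l : ℝ) ^ 2) ^ 3 ≤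
      3 * √3 * Real.pi / 16 * (m - 1 / 4) ^ 2 := by
  have h3 : (1.732 : ℝ) ≤ √3 := Real.le_sqrt_of_sq_le (by norm_num)
  have hπ : (3.14 : ℝ) < Real.pi := Real.pi_gt_d2
  have hsum : ∑ l ∈ Ico (1 : ℕ) (8 * 1 - 3), 2 * √(m - (l : ℝ) ^ 2) ^ 3 =
      2 * √(m - 1) ^ 3 + 2 * √(m - 4) ^ 3 + 2 * √(m - 9) ^ 3 + 2 * √(m - 16) ^ 3 := by
    have : Ico (1 : ℕ) (8 * 1 - 3) = {1, 2, 3, 4} := by decide
    rw [this, sum_insert (by decide), sum_insert (by decide), sum_insert (by decide),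
      sum_singleton]
    norm_num
    ring
  rw [hsum]
  have hR : 1.0197 * (m - 1 / 4) ^ 2 ≤ 3 * √3 * Real.pi / 16 * (m - 1 / 4) ^ 2 := by
    apply mul_le_mul_of_nonneg_right _ (sq_nonneg _)
    nlinarith
  refine le_trans ?_ hR
  have key : ∀ b c c' : ℝ, 0 < c → c' * c = 1 → 0 ≤ b → 2 * √b ^ 3 ≤ c' * b ^ 2 + c * b := by
    intro b c c' hc hcc hb
    set y := √b with hy
    have hy0 : 0 ≤ y := Real.sqrt_nonneg _
    have hy2 : y ^ 2 = b := Real.sq_sqrt hb
    have hc' : c' = 1 / c := by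
      field_simp
      exact hcc
    rw [← hy2, hc']
    have h1 : 1 / c * (y ^ 2) ^ 2 + c * y ^ 2 - 2 * y ^ 3 = y ^ 2 * (y - c) ^ 2 / c := by
      field_simp
      ring
    have h2 : 0 ≤ y ^ 2 * (y - c) ^ 2 / c := by positivity
    linarith
  have zero : ∀ b : ℝ, b ≤ 0 → 2 * √b ^ 3 = 0 := by
    intro b hb
    rw [Real.sqrt_eq_zero_of_nonpos hb]
    norm_num
  rcases le_or_gt m 1 with h1 | h1
  · rw [zero _ (by linarith), zero _ (by linarith), zero _ (by linarith), zero _ (by linarith)]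
    have := sq_nonneg (m - 1 / 4)
    linarith
  rcases le_or_gt m 4 with h4 | h4
  · rw [zero (m - 4) (by linarith), zero (m - 9) (by linarith), zero (m - 16) (by linarith)]
    have k1 := key (m - 1) (3 / 2) (2 / 3) (by norm_num) (by norm_num) (by linarith)
    nlinarith [sq_nonneg (m - 1)]
  rcases le_or_gt m 9 with h9 | h9
  · rw [zero (m - 9) (by linarith), zero (m - 16) (by linarith)]
    have k1 := key (m - 1) (12 / 5) (5 / 12) (by norm_num) (by norm_num) (by linarith)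
    have k2 := key (m - 4) (17 / 10) (10 / 17) (by norm_num) (by norm_num) (by linarith)
    nlinarith [sq_nonneg (m - 4)]
  rcases le_or_gt m 16 with h16 | h16
  · rw [zero (m - 16) (by linarith)]
    have k1 := key (m - 1) (18 / 5) (5 / 18) (by norm_num) (by norm_num) (by linarith)
    have k2 := key (m - 4) (16 / 5) (5 / 16) (by norm_num) (by norm_num) (by linarith)
    have k3 := key (m - 9) (11 / 5) (5 / 11) (by norm_num) (by norm_num) (by linarith)
    nlinarith [mul_nonneg (sub_nonneg.2 h9.le) (sub_nonneg.2 h16)]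
  · have k1 := key (m - 1) (49 / 10) (10 / 49) (by norm_num) (by norm_num) (by linarith)
    have k2 := key (m - 4) (23 / 5) (5 / 23) (by norm_num) (by norm_num) (by linarith)
    have k3 := key (m - 9) 4 (1 / 4) (by norm_num) (by norm_num) (by linarith)
    have k4 := key (m - 16) 3 (1 / 3) (by norm_num) (by norm_num) (by linarith)
    nlinarith [sq_nonneg (m - 16)]

end Pool.Agent.N537.CS
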