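import Pool.Agent.N537.CS.Mix
import Pool.Agent.R117.RL.ShellCst

/-!
The inequality for windows of angular momenta in dimension three.
-/

open Finset

namespace Pool.Agent.N537.CS

open Pool.Agent.R117.RL

/-- the inequality of Hermite and Hadamard for the power `3/2` -/
theorem hh {y h : ℝ} (hh : 0 ≤ h) : 5 * h * √y ^ 3 ≤ √(y + h) ^ 5 - √(y - h) ^ 5 := by
  rcases le_or_gt y 0 with hy | hy
  · have h1 : √y = 0 := Real.sqrt_eq_zero_of_nonpos hy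
    have h2 : √(y - h) ^ 5 ≤ √(y + h) ^ 5 :=
      pow_le_pow_left₀ (Real.sqrt_nonneg _) (Real.sqrt_le_sqrt (by linarith)) 5
    rw [h1]
    simp only [ne_eq, OfNat.ofNat_ne_zero, not_false_eq_true, zero_pow, mul_zero]
    linarith
  · set s := √y with hs
    have hs0 : 0 ≤ s := Real.sqrt_nonneg _
    have hs2 : s ^ 2 = y := Real.sq_sqrt hy.le
    set a := √(y + h) with ha
    have ha0 : 0 ≤ a := Real.sqrt_nonneg _
    have ha2 : a ^ 2 = y + h := Real.sq_sqrt (by linarith)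
    have hl : (5 * h * s ^ 3) ^ 2 = 25 * h ^ 2 * y ^ 3 := by
      rw [← hs2]
      ring
    rcases le_or_gt h y with hhy | hhy
    · set b := √(y - h) with hb
      have hb0 : 0 ≤ b := Real.sqrt_nonneg _
      have hb2 : b ^ 2 = y - h := Real.sq_sqrt (by linarith)
      have hab : b ≤ a := Real.sqrt_le_sqrt (by linarith)
      have h5 : 0 ≤ a ^ 5 - b ^ 5 := by
        have := pow_le_pow_left₀ hb0 hab 5
        linarith
      have e1 : h = (a ^ 2 - b ^ 2) / 2 := by rw [ha2, hb2]; ring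
      have e2 : y = (a ^ 2 + b ^ 2) / 2 := by rw [ha2, hb2]; ring
      have h6 : (5 * h * s ^ 3) ^ 2 ≤ (a ^ 5 - b ^ 5) ^ 2 := by
        rw [hl, e1, e2]
        have h7 : 0 ≤ (a - b) ^ 4 * (7 * a ^ 6 + 28 * a ^ 5 * b + 45 * a ^ 4 * b ^ 2 +
            40 * a ^ 3 * b ^ 3 + 45 * a ^ 2 * b ^ 4 + 28 * a * b ^ 5 + 7 * b ^ 6) := by
          positivity
        have h8 : 32 * ((a ^ 5 - b ^ 5) ^ 2 -
            25 * ((a ^ 2 - b ^ 2) / 2) ^ 2 * ((a ^ 2 + b ^ 2) / 2) ^ 3) =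
            (a - b) ^ 4 * (7 * a ^ 6 + 28 * a ^ 5 * b + 45 * a ^ 4 * b ^ 2 +
            40 * a ^ 3 * b ^ 3 + 45 * a ^ 2 * b ^ 4 + 28 * a * b ^ 5 + 7 * b ^ 6) := by
          ring
        linarith
      exact le_of_sq_le_sq h6 h5
    · have hb : √(y - h) = 0 := Real.sqrt_eq_zero_of_nonpos (by linarith)
      rw [hb]
      simp only [ne_eq, OfNat.ofNat_ne_zero, not_false_eq_true, zero_pow, sub_zero]
      have h6 : (5 * h * s ^ 3) ^ 2 ≤ (a ^ 5) ^ 2 := by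
        rw [hl, ← pow_mul, show 5 * 2 = 2 * 5 from rfl, pow_mul, ha2]
        obtain ⟨t, ht, rfl⟩ : ∃ t, 0 ≤ t ∧ h = y + t := ⟨h - y, by linarith, by ring⟩
        have h7 : 0 ≤ 7 * y ^ 5 + 30 * y ^ 4 * t + 55 * y ^ 3 * t ^ 2 + 40 * y ^ 2 * t ^ 3 +
            10 * y * t ^ 4 + t ^ 5 := by positivity
        have h8 : (y + (y + t)) ^ 5 - 25 * (y + t) ^ 2 * y ^ 3 =
            7 * y ^ 5 + 30 * y ^ 4 * t + 55 * y ^ 3 * t ^ 2 + 40 * y ^ 2 * t ^ 3 +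
            10 * y * t ^ 4 + t ^ 5 := by ring
        linarith
      exact le_of_sq_le_sq h6 (by positivity)

/-- the inequality of Jensen for the power `5/2` -/
theorem jen {x w z : ℝ} (hx : 0 ≤ x) (hw : 0 ≤ w) (hz : 0 ≤ z)
    (h : z ^ 2 ≤ (x ^ 2 + 15 * w ^ 2) / 16) : z ^ 5 ≤ x ^ 5 + √3 / 2 * w ^ 5 := by
  have hp : ∀ v : ℝ, 0 ≤ v → (v ^ 2) ^ ((5 : ℝ) / 2) = v ^ 5 := by
    intro v hv
    rw [← Real.rpow_natCast v 2, ← Real.rpow_mul hv, ← Real.rpow_natCast v 5]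
    norm_num
  set κ : ℝ := √(125 / 132) with hκ
  have hκ0 : 0 ≤ κ := Real.sqrt_nonneg _
  have hκ2 : κ ^ 2 = 125 / 132 := Real.sq_sqrt (by norm_num)
  have h1 := (convexOn_rpow (p := 5 / 2) (by norm_num)).2
    (Set.mem_Ici.2 (sq_nonneg (5 / 2 * x))) (Set.mem_Ici.2 (sq_nonneg (κ * w)))
    (by norm_num : (0 : ℝ) ≤ 1 / 100) (by norm_num : (0 : ℝ) ≤ 99 / 100) (by norm_num)
  simp only [smul_eq_mul] at h1
  rw [hp _ (by positivity), hp _ (by positivity)] at h1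
  have h2 : 1 / 100 * (5 / 2 * x) ^ 2 + 99 / 100 * (κ * w) ^ 2 = (x ^ 2 + 15 * w ^ 2) / 16 := by
    rw [mul_pow, mul_pow, hκ2]
    ring
  rw [h2] at h1
  have h3 : z ^ 5 ≤ ((x ^ 2 + 15 * w ^ 2) / 16) ^ ((5 : ℝ) / 2) := by
    rw [← hp z hz]
    exact Real.rpow_le_rpow (sq_nonneg z) h (by norm_num)
  have h4 : 99 / 100 * κ ^ 5 ≤ √3 / 2 := by
    have h5 : (99 / 100 * κ ^ 5) ^ 2 ≤ (√3 / 2) ^ 2 := by
      have h6 : √3 ^ 2 = (3 : ℝ) := Real.sq_sqrt (by norm_num)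
      have h7 : (99 / 100 * κ ^ 5) ^ 2 = (99 / 100) ^ 2 * (κ ^ 2) ^ 5 := by ring
      have h8 : (√3 / 2) ^ 2 = √3 ^ 2 / 4 := by ring
      rw [h7, h8, hκ2, h6]
      norm_num
    exact le_of_sq_le_sq h5 (by positivity)
  have h6 : 1 / 100 * (5 / 2 * x) ^ 5 + 99 / 100 * (κ * w) ^ 5 ≤ x ^ 5 + √3 / 2 * w ^ 5 := by
    rw [mul_pow, mul_pow]
    have h7 := mul_le_mul_of_nonneg_right h4 (pow_nonneg hw 5)
    have h8 : (0 : ℝ) ≤ x ^ 5 := by positivity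
    nlinarith
  exact h3.trans (h1.trans h6)

/-- the window inequality, `L ≥ 2` -/
theorem win {L : ℕ} (hL : 2 ≤ L) {w : ℝ} (hw : 0 ≤ w) :
    ∑ l ∈ Ico L (4 * L - 1), (2 * (l : ℝ) + 1) * √(w ^ 2 - l * ((l : ℝ) + 1)) ^ 3 ≤
      √3 / 5 * w ^ 5 := by
  have hL' : (2 : ℝ) ≤ L := by exact_mod_cast hL
  set F : ℕ → ℝ := fun l => √(w ^ 2 - ((l : ℝ) ^ 2 - 1 / 2)) ^ 5 with hF
  have h1 : ∀ l ∈ Ico L (4 * L - 1),
      (2 * (l : ℝ) + 1) * √(w ^ 2 - l * ((l : ℝ) + 1)) ^ 3 ≤ 2 / 5 * (F l - F (l + 1)) := by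
    intro l _
    have h2 := hh (y := w ^ 2 - l * ((l : ℝ) + 1)) (h := (l : ℝ) + 1 / 2) (by positivity)
    have e1 : w ^ 2 - l * ((l : ℝ) + 1) + ((l : ℝ) + 1 / 2) = w ^ 2 - ((l : ℝ) ^ 2 - 1 / 2) := by
      ring
    have e2 : w ^ 2 - l * ((l : ℝ) + 1) - ((l : ℝ) + 1 / 2) =
        w ^ 2 - (((l + 1 : ℕ) : ℝ) ^ 2 - 1 / 2) := by
      push_cast
      ring
    rw [e1, e2] at h2
    simp only [hF]
    linarith
  refine (sum_le_sum h1).trans ?_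
  rw [← mul_sum]
  have h3 : ∑ l ∈ Ico L (4 * L - 1), (F l - F (l + 1)) = F L - F (4 * L - 1) := by
    have h4 := Finset.sum_Ico_sub (f := F) (show L ≤ 4 * L - 1 by omega)
    rw [← neg_sub (F (4 * L - 1)) (F L), ← h4, ← sum_neg_distrib]
    exact sum_congr rfl fun l _ => (neg_sub _ _).symm
  rw [h3]
  set A : ℝ := (L : ℝ) ^ 2 - 1 / 2 with hA
  set x : ℝ := √(w ^ 2 - 16 * A) with hx
  have hx0 : 0 ≤ x := Real.sqrt_nonneg _
  have h5 : x ^ 5 ≤ F (4 * L - 1) := by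
    simp only [hF]
    apply pow_le_pow_left₀ hx0
    apply Real.sqrt_le_sqrt
    have e : ((4 * L - 1 : ℕ) : ℝ) = 4 * (L : ℝ) - 1 := by
      rw [Nat.cast_sub (by omega)]
      push_cast
      ring
    rw [e, hA]
    nlinarith
  have h6 : F L ≤ x ^ 5 + √3 / 2 * w ^ 5 := by
    apply jen hx0 hw (Real.sqrt_nonneg _)
    rw [Real.sq_sqrt', hx, Real.sq_sqrt']
    apply max_le
    · have := le_max_left (w ^ 2 - 16 * A) 0
      linarith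
    · have := le_max_right (w ^ 2 - 16 * A) 0
      positivity
  linarith

/-- the window inequality, `L = 1` -/
theorem win1 {w : ℝ} (hw : 0 ≤ w) :
    ∑ l ∈ Ico (1 : ℕ) (4 * 1 - 1), (2 * (l : ℝ) + 1) * √(w ^ 2 - l * ((l : ℝ) + 1)) ^ 3 ≤
      √3 / 5 * w ^ 5 := by
  have h3 : (1.732 : ℝ) ≤ √3 := Real.le_sqrt_of_sq_le (by norm_num)
  have hsum : ∑ l ∈ Ico (1 : ℕ) (4 * 1 - 1), (2 * (l : ℝ) + 1) * √(w ^ 2 - l * ((l : ℝ) + 1)) ^ 3 =
      3 * √(w ^ 2 - 2) ^ 3 + 5 * √(w ^ 2 - 6) ^ 3 := by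
    have : Ico (1 : ℕ) (4 * 1 - 1) = {1, 2} := by decide
    rw [this, sum_insert (by decide), sum_singleton]
    norm_num
  rw [hsum]
  have hR : 0.3464 * w ^ 5 ≤ √3 / 5 * w ^ 5 :=
    mul_le_mul_of_nonneg_right (by linarith) (by positivity)
  refine le_trans ?_ hR
  -- the inequality of the means
  have key : ∀ y v c : ℝ, 0 ≤ y → 0 < c → y ^ 2 = v → y ^ 3 ≤ v * (v / (2 * c) + c / 2) := by
    intro y v c hy hc hv
    rw [← hv]
    have h1 : y ^ 2 * (y ^ 2 / (2 * c) + c / 2) - y ^ 3 = y ^ 2 * (y - c) ^ 2 / (2 * c) := by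
      field_simp
      ring
    have h2 : 0 ≤ y ^ 2 * (y - c) ^ 2 / (2 * c) := by positivity
    linarith
  rcases le_or_gt (w ^ 2) 2 with h2 | h2
  · have e1 : √(w ^ 2 - 2) = 0 := Real.sqrt_eq_zero_of_nonpos (by linarith)
    have e2 : √(w ^ 2 - 6) = 0 := Real.sqrt_eq_zero_of_nonpos (by linarith)
    rw [e1, e2]
    have : 0 ≤ w ^ 5 := by positivity
    norm_num
    exact this
  rcases le_or_gt (w ^ 2) 6 with h6 | h6
  · have e2 : √(w ^ 2 - 6) = 0 := Real.sqrt_eq_zero_of_nonpos (by linarith)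
    rw [e2]
    have h7 := key (√(w ^ 2 - 2)) (w ^ 2 - 2) 1.7 (Real.sqrt_nonneg _) (by norm_num)
      (Real.sq_sqrt (by linarith))
    have hw1 : 1.414 ≤ w := by nlinarith
    have hw2 : w ≤ 2.4495 := by nlinarith
    have h8 : 3 * ((w ^ 2 - 2) * ((w ^ 2 - 2) / (2 * 1.7) + 1.7 / 2)) ≤ 0.3464 * w ^ 5 := by
      have h9 : 0 ≤ w ^ 3 := by positivity
      have h10 : 3 * ((w ^ 2 - 2) * ((w ^ 2 - 2) / (2 * 1.7) + 1.7 / 2)) =
          15 / 17 * (w ^ 2 - 2) ^ 2 + 2.55 * (w ^ 2 - 2) := by ring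
      rw [h10]
      nlinarith [mul_nonneg h9 (sq_nonneg (w - 1.6)), mul_nonneg (sq_nonneg w) (sq_nonneg (w - 1.96)),
        sq_nonneg w, mul_nonneg (sq_nonneg w) (sub_nonneg.2 hw2)]
    linarith
  · have h7 := key (√(w ^ 2 - 2)) (w ^ 2 - 2) 3 (Real.sqrt_nonneg _) (by norm_num)
      (Real.sq_sqrt (by linarith))
    have h7' := key (√(w ^ 2 - 6)) (w ^ 2 - 6) 2 (Real.sqrt_nonneg _) (by norm_num)
      (Real.sq_sqrt (by linarith))
    have hw1 : 2.449 ≤ w := by nlinarith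
    have h8 : 3 * ((w ^ 2 - 2) * ((w ^ 2 - 2) / (2 * 3) + 3 / 2)) +
        5 * ((w ^ 2 - 6) * ((w ^ 2 - 6) / (2 * 2) + 2 / 2)) = 1.75 * w ^ 4 - 7.5 * w ^ 2 + 8 := by
      ring
    have hw3 : 2.449 ^ 3 ≤ w ^ 3 := pow_le_pow_left₀ (by norm_num) hw1 3
    have hR : 0 ≤ 0.3464 * w ^ 3 + 0.46696 * w ^ 2 - 0.558592 * w - 0.8566592 := by
      nlinarith [mul_nonneg (sub_nonneg.2 hw1) (by linarith : (0 : ℝ) ≤ w)]
    have h9 := mul_nonneg (sq_nonneg (w - 3.2)) hR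
    have h10 : (w - 3.2) ^ 2 * (0.3464 * w ^ 3 + 0.46696 * w ^ 2 - 0.558592 * w - 0.8566592) =
        0.3464 * w ^ 5 - 1.75 * w ^ 4 + 7.5 * w ^ 2 - 18544 / 78125 * w - 17133184 / 1953125 := by
      ring
    linarith

end Pool.Agent.N537.CS
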